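import Pool.Agent.N47.CG.Quot

/-!
# Listing sequences for groups with a normal subgroup of index at most three, abelian modulo `N`

Let `G` be a finite group with a symmetric generating set `S ≠ ∅` and normal subgroups `N ≤ A` with
`A / N` abelian and `[G : A] ≤ 3`, such that `Cay(G, S)` has a path which visits exactly the elements of
`N` (for instance `N = 1`).

* If `[G : A] ≤ 2` then `Cay(G, S)` has a Hamiltonian path.
* If `[G : A] = 3` it has one unless, for every `z ∈ S ∖ A`, all elements of `S ∖ A` are in `N ⟨z⟩`, and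
  for every `s ∈ S ∩ A` outside `N ⟨z⟩` some odd power of `s` is in `N ⟨z⟩`, `z s z⁻¹ s⁻¹ ∉ N ⟨z⟩` and
  `z³ ∉ N ⟨s⟩ ⟨ν(s) z³⟩` where `ν(s) = s · zsz⁻¹ · z²sz⁻²`.

Idea of the proof.

Index two (in `G / N`): let `H` be generated by `S ∩ A`, let `z ∈ S` be outside `A` and write `h^z` for
`z h z⁻¹`. As `Cay(H, S ∩ A)` has a Hamiltonian cycle (if `|H| ≥ 3`), the set `E` of the end points of
its Hamiltonian paths from `1` generates `H`. So there are `e₁, …, e_{m-1} ∈ E` whose initial products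
`q_i` represent the cosets of `H ∩ H^z` in `H`. Going through the left cosets of `H` one by one, with
changes of the end point by `f, e₁, e₁, e₂, e₂, …`, and passing from `A` to `A z` by `z` and back by
`z⁻¹`, one gets a Hamiltonian path of `H H^z ∪ H H^z z`, to which the elements of `S ∖ A` are added.

Index three: let `B ≥ N ⟨z³⟩` be normalised by `z`. One looks for Hamiltonian paths of `B ⟨z⟩` from
`B z^i` to `B z^j`. For `B = N ⟨z³⟩` there are such paths for `j = i ± 1`. As soon as there are such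
paths for all `i, j` one can add all elements of `S`, by paths of `B U ⟨z⟩` for `U` generated by one,
two and three conjugates of the new element. A first element `s ∉ N ⟨z⟩` gives paths for all `i, j` if
`s ∉ A`, if only even powers of `s` are in `N ⟨z⟩`, or if `z s z⁻¹ s⁻¹ ∈ N ⟨z⟩`. If
`z³ ∈ N ⟨s⟩ ⟨ν(s) z³⟩` put `a = s⁻¹`, `V = a⁻¹ (z a z⁻¹ a⁻¹)^h z` (`2 h + 1` is the order of `z a z⁻¹`
modulo `⟨a, V³⟩`), so that `V³ = ν(a)⁻¹ z³` is central modulo `N`; the cosets of `⟨a⟩` in `⟨a, z⟩ N / N`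
are visited in the order given by the powers of `V`, each by the path `1, a⁻¹, a⁻², …` or
`1, a, a², …`.
-/

set_option autoImplicit false

namespace Pool.Agent.Results.MP_688fd0_co.AbelianSmallIndex

/-- Let `G` be a finite group, `S ≠ ∅` a symmetric generating set, `N ≤ A` normal subgroups with `A / N`
abelian and `[G : A] ≤ 3`, and suppose that there is a path in `Cay(G, S)` which visits exactly the
elements of `N`. If `[G : A] = 3`, suppose also that there is `z ∈ S ∖ A` such that `S ⊆ N ⟨z⟩` or such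
that for some `s ∈ S` outside `N ⟨z⟩` one of the following holds:

* `s ∉ A`;
* all `m` with `s ^ m ∈ N ⟨z⟩` are even;
* `z s z⁻¹ s⁻¹ ∈ N ⟨z⟩`;
* `z³ ∈ N ⟨s⟩ ⟨ν(s) z³⟩`, `ν(s) = s · zsz⁻¹ · z²sz⁻²`.

Then there are `a_1, …, a_n ∈ S`, `n = |G|`, whose partial products `a_1, a_1 a_2, …, a_1 ⋯ a_n` are
pairwise distinct. -/
theorem result {G : Type*} [Group G] [Finite G] (S : Set G) (hne : S.Nonempty)
    (hS : ∀ x ∈ S, x⁻¹ ∈ S) (hgen : Subgroup.closure S = ⊤) (A N : Subgroup G) [A.Normal] [N.Normal]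
    (hNA : N ≤ A) (hcom : ∀ a ∈ A, ∀ b ∈ A, a * b * a⁻¹ * b⁻¹ ∈ N)
    (hN : ∃ p : List G, p.Nodup ∧ (∀ g, g ∈ p ↔ g ∈ N) ∧ p.IsChain (fun g h => g⁻¹ * h ∈ S))
    (hA : A.index ≤ 3)
    (h3 : A.index = 3 → ∃ z ∈ S, z ∉ A ∧
      (S ⊆ (N ⊔ Subgroup.zpowers z : Subgroup G) ∨
        ∃ s ∈ S, s ∉ N ⊔ Subgroup.zpowers z ∧
          (s ∉ A ∨
            (∀ m : ℕ, s ^ m ∈ N ⊔ Subgroup.zpowers z → Even m) ∨
            z * s * z⁻¹ * s⁻¹ ∈ N ⊔ Subgroup.zpowers z ∨
            ∃ i j : ℤ, (z ^ 3)⁻¹ *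
              (s ^ i * (s * (z * s * z⁻¹) * (z ^ 2 * s * (z ^ 2)⁻¹) * z ^ 3) ^ j) ∈ N))) :
    ∃ a : Fin (Nat.card G) → G, (∀ i, a i ∈ S) ∧
      Function.Injective (fun k : Fin (Nat.card G) => ((List.ofFn a).take (k.val + 1)).prod) := by
  obtain ⟨x₀, y₀, hp⟩ := Pool.Agent.N47.CG.ham_of_list hN
  have h0 : A.index ≠ 0 := Subgroup.index_ne_zero_of_finite
  rcases (show A.index = 1 ∨ A.index = 2 ∨ A.index = 3 by omega) with h | h | h
  · rw [Subgroup.index_eq_one] at h
    subst h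
    obtain ⟨s, hs, y, hy⟩ := Pool.Agent.N47.CG.quot_one hS hgen hne
      (fun a b => hcom a trivial b trivial) hp
    exact Pool.Agent.N47.CG.listing_of_ham hs hy
  · obtain ⟨s, hs, y, hy⟩ := Pool.Agent.N47.CG.quot_two hS hgen hNA hcom hp h
    exact Pool.Agent.N47.CG.listing_of_ham hs hy
  · obtain ⟨z, hz, hzA, hex⟩ := h3 h
    obtain ⟨s, hs, y, hy⟩ := Pool.Agent.N47.CG.quot_three hS hgen hNA hcom hp hz hzA h hex
    exact Pool.Agent.N47.CG.listing_of_ham hs hy

end Pool.Agent.Results.MP_688fd0_co.AbelianSmallIndex
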