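import Mathlib

/-!
Problem MP_688fd0_co: every generating set of every finite nilpotent group of class at most two has
a listing sequence.
-/

namespace Pool.Agent.Results.MP_688fd0_co.ClassTwo

universe u

variable {G : Type u} [Group G]

/-- the vertices of the walk from `1` with labels `w` -/
def vis : List G → List G
  | [] => [1]
  | a :: w => 1 :: (vis w).map (a * ·)

theorem vis_append (w w' : List G) (c : G) :
    vis (w ++ c :: w') = vis w ++ (vis w').map (w.prod * c * ·) := by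
  induction w with
  | nil => simp [vis]
  | cons a w ih =>
    simp [vis, ih, List.map_append, mul_assoc, Function.comp_def]

theorem length_vis (w : List G) : (vis w).length = w.length + 1 := by
  induction w with
  | nil => rfl
  | cons a w ih => simp [vis, ih]

theorem one_mem_vis (w : List G) : (1 : G) ∈ vis w := by
  cases w <;> simp [vis]

theorem prod_mem_vis (w : List G) : w.prod ∈ vis w := by
  induction w with
  | nil => simp [vis]
  | cons a w ih =>
    simp only [vis, List.prod_cons, List.mem_cons, List.mem_map]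
    right
    exact ⟨_, ih, rfl⟩

/-- a walk from `1` to `p` with labels in `A` which meets every left coset of `L` contained in `X`
exactly once, and no other ones -/
def Tr (L : Subgroup G) (A X : Set G) (p : G) : Prop :=
  ∃ w : List G, (∀ a ∈ w, a ∈ A) ∧ (vis w).Pairwise (fun x y => x⁻¹ * y ∉ L) ∧
    (∀ g, g ∈ X ↔ ∃ x ∈ vis w, x⁻¹ * g ∈ L) ∧ w.prod = p

theorem Tr.mem {L : Subgroup G} {A X : Set G} {p : G} (h : Tr L A X p) : p ∈ X := by
  obtain ⟨w, _, _, hX, rfl⟩ := h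
  rw [hX]
  exact ⟨_, prod_mem_vis w, by simp⟩

theorem Tr.mono {L : Subgroup G} {A B X : Set G} {p : G} (h : Tr L A X p) (hAB : A ⊆ B) :
    Tr L B X p := by
  obtain ⟨w, h1, h2⟩ := h
  exact ⟨w, fun a ha => hAB (h1 a ha), h2⟩

theorem tr_one (L : Subgroup G) (A : Set G) : Tr L A (L : Set G) 1 := by
  refine ⟨[], by simp, by simp [vis], ?_, rfl⟩
  intro g
  simp [vis]

theorem Tr.append {L : Subgroup G} {A X Y : Set G} {p q c : G} (hX : Tr L A X p) (hc : c ∈ A)
    (hY : Tr L A Y q) (hd : ∀ y ∈ Y, p * c * y ∉ X) :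
    Tr L A {g | g ∈ X ∨ ∃ y ∈ Y, g = p * c * y} (p * c * q) := by
  obtain ⟨w, h1, h2, h3, rfl⟩ := hX
  obtain ⟨w', h1', h2', h3', rfl⟩ := hY
  refine ⟨w ++ c :: w', ?_, ?_, ?_, by simp [mul_assoc]⟩
  · intro a ha
    rw [List.mem_append, List.mem_cons] at ha
    rcases ha with ha | rfl | ha
    · exact h1 a ha
    · exact hc
    · exact h1' a ha
  · rw [vis_append, List.pairwise_append]
    refine ⟨h2, ?_, ?_⟩
    · rw [List.pairwise_map]
      refine h2'.imp ?_
      intro x y hxy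
      have e : (w.prod * c * x)⁻¹ * (w.prod * c * y) = x⁻¹ * y := by group
      rw [e]; exact hxy
    · intro x hx y hy hxy
      rw [List.mem_map] at hy
      obtain ⟨y, hy, rfl⟩ := hy
      refine hd y ((h3' y).2 ⟨y, hy, by simp⟩) ((h3 _).2 ⟨x, hx, hxy⟩)
  · intro g
    rw [vis_append]
    constructor
    · rintro (hg | ⟨y, hy, rfl⟩)
      · obtain ⟨x, hx, hxg⟩ := (h3 g).1 hg
        exact ⟨x, List.mem_append_left _ hx, hxg⟩
      · obtain ⟨x, hx, hxg⟩ := (h3' y).1 hy
        refine ⟨w.prod * c * x, List.mem_append_right _ (List.mem_map.2 ⟨x, hx, rfl⟩), ?_⟩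
        have e : (w.prod * c * x)⁻¹ * (w.prod * c * y) = x⁻¹ * y := by group
        rw [e]; exact hxg
    · rintro ⟨x, hx, hxg⟩
      rw [List.mem_append] at hx
      rcases hx with hx | hx
      · left; exact (h3 g).2 ⟨x, hx, hxg⟩
      · right
        rw [List.mem_map] at hx
        obtain ⟨x, hx, rfl⟩ := hx
        refine ⟨(w.prod * c)⁻¹ * g, (h3' _).2 ⟨x, hx, ?_⟩, by group⟩
        have e : x⁻¹ * ((w.prod * c)⁻¹ * g) = (w.prod * c * x)⁻¹ * g := by group
        rw [e]; exact hxg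

theorem Tr.congr {L : Subgroup G} {A X Y : Set G} {p : G} (h : Tr L A X p)
    (hXY : ∀ g, g ∈ X ↔ g ∈ Y) : Tr L A Y p := by
  have : X = Y := Set.ext hXY
  rwa [← this]

/-- repeating a walk -/
theorem Tr.rep {L : Subgroup G} {A Y : Set G} {p c : G} (hY : Tr L A Y p) (hc : c ∈ A) (k : ℕ)
    (hk : ∀ i : ℕ, 0 < i → i ≤ k → ∀ y ∈ Y, (p * c) ^ i * y ∉ Y) :
    Tr L A {x | ∃ i : ℕ, i ≤ k ∧ ∃ y ∈ Y, x = (p * c) ^ i * y} ((p * c) ^ k * p) := by
  induction k with
  | zero =>
    rw [pow_zero, one_mul]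
    refine hY.congr fun g => ⟨fun hg => ⟨0, le_rfl, g, hg, by simp⟩, ?_⟩
    rintro ⟨i, hi, y, hy, rfl⟩
    have : i = 0 := by omega
    subst this
    simpa using hy
  | succ k ih =>
    have h1 := ih (fun i h1 h2 => hk i h1 (by omega))
    have h2 := h1.append hc hY (by
      rintro y hy ⟨i, hi, y', hy', he⟩
      refine hk (k + 1 - i) (by omega) (by omega) y hy ?_
      have e : (p * c) ^ k * p * c * y = (p * c) ^ (k + 1) * y := by
        rw [pow_succ]; group
      rw [e] at he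
      have e2 : (p * c) ^ (k + 1) = (p * c) ^ i * (p * c) ^ (k + 1 - i) := by
        rw [← pow_add]; congr 1; omega
      rw [e2, mul_assoc] at he
      rw [mul_left_cancel he]
      exact hy')
    have e : (p * c) ^ k * p * c * p = (p * c) ^ (k + 1) * p := by
      rw [pow_succ]; group
    rw [e] at h2
    refine h2.congr fun g => ⟨?_, ?_⟩
    · rintro (⟨i, hi, y, hy, rfl⟩ | ⟨y, hy, rfl⟩)
      · exact ⟨i, by omega, y, hy, rfl⟩
      · refine ⟨k + 1, le_rfl, y, hy, ?_⟩
        rw [pow_succ]; group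
    · rintro ⟨i, hi, y, hy, rfl⟩
      by_cases h : i ≤ k
      · left; exact ⟨i, h, y, hy, rfl⟩
      · right
        have : i = k + 1 := by omega
        subst this
        refine ⟨y, hy, ?_⟩
        rw [pow_succ]; group

/-- the cyclic extension of a walk -/
theorem Tr.ext [Finite G] {L : Subgroup G} {A Y : Set G} {p c : G} (hY : Tr L A Y p) (hc : c ∈ A)
    (J : Subgroup G) (hJ : ∀ j ∈ J, ∀ y ∈ Y, j * y ∈ Y)
    (hg : ∀ i : ℕ, ∀ y ∈ Y, (p * c) ^ i * y ∈ Y → (p * c) ^ i ∈ J) :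
    ∃ k : ℕ, Tr L A {x | ∃ i : ℤ, ∃ y ∈ Y, x = (p * c) ^ i * y} ((p * c) ^ k * p) := by
  classical
  have hex : ∃ m : ℕ, 0 < m ∧ (p * c) ^ m ∈ J :=
    ⟨orderOf (p * c), orderOf_pos _, by rw [pow_orderOf_eq_one]; exact J.one_mem⟩
  obtain ⟨hm0, hmJ⟩ := Nat.find_spec hex
  set m := Nat.find hex with hm
  refine ⟨m - 1, ?_⟩
  have h1 := hY.rep hc (m - 1) (by
    intro i hi0 him y hy hyY
    have := Nat.find_min hex (m := i) (by omega)
    exact this ⟨hi0, hg i y hy hyY⟩)
  refine h1.congr fun g => ⟨?_, ?_⟩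
  · rintro ⟨i, _, y, hy, rfl⟩
    exact ⟨i, y, hy, by simp⟩
  · rintro ⟨i, y, hy, rfl⟩
    have hmz : (0 : ℤ) < m := by exact_mod_cast hm0
    have hr0 : 0 ≤ i % m := Int.emod_nonneg _ hmz.ne'
    have hrm : i % m < m := Int.emod_lt_of_pos _ hmz
    obtain ⟨r, hr⟩ := Int.eq_ofNat_of_zero_le hr0
    refine ⟨r, by omega, ((p * c) ^ m) ^ (i / m) * y, hJ _ (J.zpow_mem hmJ _) y hy, ?_⟩
    rw [← mul_assoc]
    congr 1
    rw [← zpow_natCast (p * c) r, ← hr, ← zpow_natCast (p * c) m, ← zpow_mul, ← zpow_add]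
    congr 1
    have := Int.emod_add_mul_ediv i m
    rw [this]


/-- the subgroup generated by `J` and an element commuting with `J` -/
def extend (J : Subgroup G) (g : G) (h : ∀ j ∈ J, Commute g j) : Subgroup G where
  carrier := {x | ∃ i : ℤ, ∃ y ∈ J, x = g ^ i * y}
  one_mem' := ⟨0, 1, J.one_mem, by simp⟩
  mul_mem' := by
    rintro _ _ ⟨i, y, hy, rfl⟩ ⟨i', y', hy', rfl⟩
    refine ⟨i + i', y * y', J.mul_mem hy hy', ?_⟩
    have e : y * g ^ i' = g ^ i' * y := ((h y hy).zpow_left i').eq.symm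
    calc g ^ i * y * (g ^ i' * y') = g ^ i * (y * g ^ i') * y' := by group
      _ = g ^ i * (g ^ i' * y) * y' := by rw [e]
      _ = g ^ (i + i') * (y * y') := by rw [zpow_add]; group
  inv_mem' := by
    rintro _ ⟨i, y, hy, rfl⟩
    refine ⟨-i, y⁻¹, J.inv_mem hy, ?_⟩
    have e : y⁻¹ * g ^ (-i) = g ^ (-i) * y⁻¹ := ((h _ (J.inv_mem hy)).zpow_left (-i)).eq.symm
    rw [← e, zpow_neg, mul_inv_rev]

theorem mem_extend {J : Subgroup G} {g : G} {h : ∀ j ∈ J, Commute g j} {x : G} :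
    x ∈ extend J g h ↔ ∃ i : ℤ, ∃ y ∈ J, x = g ^ i * y := Iff.rfl

theorem le_extend {J : Subgroup G} {g : G} {h : ∀ j ∈ J, Commute g j} : J ≤ extend J g h :=
  fun x hx => ⟨0, x, hx, by simp⟩

theorem self_mem_extend {J : Subgroup G} {g : G} {h : ∀ j ∈ J, Commute g j} :
    g ∈ extend J g h := ⟨1, 1, J.one_mem, by simp⟩

theorem extend_le {J N : Subgroup G} {g : G} {h : ∀ j ∈ J, Commute g j} (hJ : J ≤ N)
    (hg : g ∈ N) : extend J g h ≤ N := by
  rintro _ ⟨i, y, hy, rfl⟩
  exact N.mul_mem (N.zpow_mem hg i) (hJ hy)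

/-- transversals along walks in abelian groups -/
theorem transversal [Finite G] (N L : Subgroup G) (hN : ∀ x ∈ N, ∀ y ∈ N, x * y = y * x)
    (hL : L ≤ N) (Z : Finset G) (hZ : ∀ z ∈ Z, z ∈ N) :
    ∃ J : Subgroup G, J ≤ N ∧ L ≤ J ∧ (∀ z ∈ Z, z ∈ J) ∧ ∃ p, Tr L (Z : Set G) (J : Set G) p := by
  classical
  induction Z using Finset.induction_on with
  | empty => exact ⟨L, hL, le_rfl, by simp, 1, tr_one L _⟩
  | insert z Z hz ih =>
    obtain ⟨J, hJN, hLJ, hZJ, p, hp⟩ := ih (fun z hz => hZ z (Finset.mem_insert_of_mem hz))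
    have hpJ : p ∈ J := hp.mem
    have hgN : p * z ∈ N := N.mul_mem (hJN hpJ) (hZ z (Finset.mem_insert_self _ _))
    have hcomm : ∀ j ∈ J, Commute (p * z) j := fun j hj => hN _ hgN _ (hJN hj)
    have hp' : Tr L ((insert z Z : Finset G) : Set G) (J : Set G) p :=
      hp.mono (by intro a ha; exact Finset.mem_insert_of_mem ha)
    obtain ⟨k, hk⟩ := hp'.ext (c := z) (by simp) J (fun j hj y hy => J.mul_mem hj hy)
      (fun i y hy h => (J.mul_mem_cancel_right hy).1 h)
    refine ⟨extend J (p * z) hcomm, extend_le hJN hgN, hLJ.trans le_extend, ?_, _, hk⟩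
    intro x hx
    rw [Finset.mem_insert] at hx
    rcases hx with rfl | hx
    · have h1 : p * x ∈ extend J (p * x) hcomm := self_mem_extend
      have h2 : p ∈ extend J (p * x) hcomm := le_extend hpJ
      exact (Subgroup.mul_mem_cancel_left _ h2).1 h1
    · exact le_extend (hZJ x hx)

theorem mem_of_mem_vis {K : Subgroup G} {w : List G} (hw : ∀ a ∈ w, a ∈ K) :
    ∀ x ∈ vis w, x ∈ K := by
  induction w with
  | nil =>
    intro x hx
    simp only [vis, List.mem_singleton] at hx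
    rw [hx]; exact K.one_mem
  | cons a w ih =>
    intro x hx
    simp only [vis, List.mem_cons, List.mem_map] at hx
    rcases hx with rfl | ⟨y, hy, rfl⟩
    · exact K.one_mem
    · exact K.mul_mem (hw a (by simp)) (ih (fun b hb => hw b (by simp [hb])) y hy)

theorem getElem_vis (w : List G) (k : ℕ) (hk : k < (vis w).length) :
    (vis w)[k] = (w.take k).prod := by
  induction w generalizing k with
  | nil =>
    have : k = 0 := by simpa [vis] using hk
    subst this
    simp [vis]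
  | cons a w ih =>
    cases k with
    | zero => simp [vis]
    | succ k =>
      simp only [vis, List.getElem_cons_succ, List.getElem_map, List.take_succ_cons,
        List.prod_cons]
      rw [ih]

/-- from a walk to a listing sequence -/
theorem listing_of_tr [Finite G] {A : Set G} {p : G} (h : Tr ⊥ A Set.univ p) (hne : A.Nonempty) :
    ∃ a : Fin (Nat.card G) → G, (∀ i, a i ∈ A) ∧
      Function.Injective (fun k : Fin (Nat.card G) => ((List.ofFn a).take (k.val + 1)).prod) := by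
  classical
  have : Fintype G := Fintype.ofFinite G
  obtain ⟨w, h1, h2, h3, _⟩ := h
  obtain ⟨c, hc⟩ := hne
  have hnd : (vis w).Nodup := by
    refine h2.imp ?_
    rintro x y hxy rfl
    exact hxy (by simp)
  have hlen : (vis w).length = Nat.card G := by
    rw [← List.toFinset_card_of_nodup hnd, Nat.card_eq_fintype_card, ← Finset.card_univ]
    congr 1
    ext g
    simp only [List.mem_toFinset, Finset.mem_univ, iff_true]
    obtain ⟨x, hx, hxg⟩ := (h3 g).1 (Set.mem_univ g)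
    rw [Subgroup.mem_bot, inv_mul_eq_one] at hxg
    rwa [← hxg]
  have hlen' : (c :: w).length = Nat.card G := by
    rw [← hlen, length_vis, List.length_cons]
  have hofFn : List.ofFn (fun i : Fin (Nat.card G) => (c :: w)[i.val]'(by rw [hlen']; exact i.2))
      = c :: w := by
    apply List.ext_getElem
    · rw [List.length_ofFn, hlen']
    · intro i hi hi'
      rw [List.getElem_ofFn]
  refine ⟨fun i => (c :: w)[i.val]'(by rw [hlen']; exact i.2), ?_, ?_⟩
  · intro i
    have h4 : (c :: w)[i.val]'(by rw [hlen']; exact i.2) ∈ c :: w := List.getElem_mem _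
    beta_reduce
    rw [List.mem_cons] at h4
    rcases h4 with h4 | h4
    · rw [h4]; exact hc
    · exact h1 _ h4
  · intro i j hij
    simp only [hofFn, List.take_succ_cons, List.prod_cons] at hij
    have h5 := mul_left_cancel hij
    have hi : i.val < (vis w).length := by rw [hlen]; exact i.2
    have hj : j.val < (vis w).length := by rw [hlen]; exact j.2
    rw [← getElem_vis w _ hi, ← getElem_vis w _ hj] at h5
    exact Fin.ext ((hnd.getElem_inj_iff).1 h5)


/-- reversing a walk -/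
theorem vis_rev (w : List G) :
    vis (w.reverse.map (·⁻¹)) = ((vis w).map (w.prod⁻¹ * ·)).reverse := by
  induction w with
  | nil => simp [vis]
  | cons a w ih =>
    have hp : (w.reverse.map (·⁻¹)).prod = w.prod⁻¹ := by
      rw [List.map_reverse, ← List.prod_inv_reverse]
    rw [List.reverse_cons, List.map_append, List.map_singleton, vis_append, ih, hp]
    simp [vis, List.map_map, Function.comp_def, mul_assoc]

theorem Tr.rev {L : Subgroup G} {A : Set G} {X : Subgroup G} {p : G} (h : Tr L A (X : Set G) p)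
    (hA : ∀ x ∈ A, x⁻¹ ∈ A) : Tr L A (X : Set G) p⁻¹ := by
  have hp : p ∈ X := h.mem
  obtain ⟨w, h1, h2, h3, rfl⟩ := h
  refine ⟨w.reverse.map (·⁻¹), ?_, ?_, ?_, ?_⟩
  · intro a ha
    simp only [List.mem_map, List.mem_reverse] at ha
    obtain ⟨b, hb, rfl⟩ := ha
    exact hA b (h1 b hb)
  · rw [vis_rev, List.pairwise_reverse, List.pairwise_map]
    refine h2.imp ?_
    intro x y hxy h
    apply hxy
    have := L.inv_mem h
    have e : ((w.prod⁻¹ * y)⁻¹ * (w.prod⁻¹ * x))⁻¹ = x⁻¹ * y := by group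
    rwa [e] at this
  · intro g
    rw [vis_rev]
    constructor
    · intro hg
      obtain ⟨x, hx, hxg⟩ := (h3 (w.prod * g)).1 (X.mul_mem hp hg)
      refine ⟨w.prod⁻¹ * x, ?_, ?_⟩
      · rw [List.mem_reverse, List.mem_map]
        exact ⟨x, hx, rfl⟩
      · have e : (w.prod⁻¹ * x)⁻¹ * g = x⁻¹ * (w.prod * g) := by group
        rw [e]; exact hxg
    · rintro ⟨x, hx, hxg⟩
      rw [List.mem_reverse, List.mem_map] at hx
      obtain ⟨x, hx, rfl⟩ := hx
      have e : (w.prod⁻¹ * x)⁻¹ * g = x⁻¹ * (w.prod * g) := by group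
      rw [e] at hxg
      exact (X.mul_mem_cancel_left hp).1 ((h3 (w.prod * g)).2 ⟨x, hx, hxg⟩)
  · rw [List.map_reverse, ← List.prod_inv_reverse]

/-- repeating a walk, with another walk at the end -/
theorem Tr.rep' {L : Subgroup G} {A Y : Set G} {p q c : G} (hY : Tr L A Y p) (hZ : Tr L A Y q)
    (hc : c ∈ A) (k : ℕ) (hk : ∀ i : ℕ, 0 < i → i ≤ k → ∀ y ∈ Y, (p * c) ^ i * y ∉ Y) :
    Tr L A {x | ∃ i : ℕ, i ≤ k ∧ ∃ y ∈ Y, x = (p * c) ^ i * y} ((p * c) ^ k * q) := by
  induction k with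
  | zero =>
    rw [pow_zero, one_mul]
    refine hZ.congr fun g => ⟨fun hg => ⟨0, le_rfl, g, hg, by simp⟩, ?_⟩
    rintro ⟨i, hi, y, hy, rfl⟩
    have : i = 0 := by omega
    subst this
    simpa using hy
  | succ k ih =>
    have h1 := ih (fun i h1 h2 => hk i h1 (by omega))
    have h2 := hY.append hc h1 (by
      rintro _ ⟨i, hi, y, hy, rfl⟩ he
      refine hk (i + 1) (by omega) (by omega) y hy ?_
      rw [pow_succ', mul_assoc]
      exact he)
    have e : ∀ (i : ℕ) (q : G), p * c * ((p * c) ^ i * q) = (p * c) ^ (i + 1) * q := by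
      intro i q
      rw [pow_succ', mul_assoc (p * c)]
    rw [e] at h2
    refine h2.congr fun g => ⟨?_, ?_⟩
    · rintro (hg | ⟨_, ⟨i, hi, y, hy, rfl⟩, rfl⟩)
      · exact ⟨0, by omega, g, hg, by simp⟩
      · exact ⟨i + 1, by omega, y, hy, e i y⟩
    · rintro ⟨i, hi, y, hy, rfl⟩
      cases i with
      | zero => left; simpa using hy
      | succ i =>
        right
        exact ⟨_, ⟨i, by omega, y, hy, rfl⟩, (e i y).symm⟩

/-- a walk through the cosets `α ε⁻¹ g^i H` where `g = ε t` -/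
theorem block {A : Set G} (H : Subgroup G) {t ε g : G} (hg : ε * t = g) (htA : t ∈ A)
    (hε : Tr ⊥ A (H : Set G) ε) (M : ℕ) (hM2 : 2 ≤ M) (hM : g ^ M ∈ H)
    (hmin : ∀ i : ℕ, 0 < i → i < M → g ^ i ∉ H) {α β : G} (hα : Tr ⊥ A (H : Set G) α)
    (hβ : Tr ⊥ A (H : Set G) β) :
    Tr ⊥ A {x | ∃ i : ℤ, ∃ y ∈ H, x = α * ε⁻¹ * (g ^ i * y)} (α * t * (g ^ (M - 2) * β)) := by
  have hαH : α ∈ H := hα.mem
  have hεH : ε ∈ H := hε.mem
  have ht : t = ε⁻¹ * g := by rw [← hg]; group
  have h1 := hε.rep' hβ htA (M - 2) (by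
    rw [hg]
    intro i hi0 hi y hy h
    exact hmin i hi0 (by omega) ((H.mul_mem_cancel_right hy).1 h))
  rw [hg] at h1
  have e1 : ∀ (i : ℕ) (y : G), α * t * (g ^ i * y) = α * ε⁻¹ * g ^ (i + 1) * y := by
    intro i y
    rw [ht]; group
  have h2 := hα.append htA h1 (by
    rintro _ ⟨i, hi, y, hy, rfl⟩ he
    refine hmin (i + 1) (by omega) (by omega) ?_
    rw [SetLike.mem_coe, e1] at he
    have h3 := (H.mul_mem_cancel_right hy).1 he
    exact (H.mul_mem_cancel_left (H.mul_mem hαH (H.inv_mem hεH))).1 h3)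
  refine h2.congr fun x => ⟨?_, ?_⟩
  · rintro (hx | ⟨_, ⟨i, hi, y, hy, rfl⟩, rfl⟩)
    · exact ⟨0, ε * α⁻¹ * x, H.mul_mem (H.mul_mem hεH (H.inv_mem hαH)) hx, by group⟩
    · refine ⟨((i + 1 : ℕ) : ℤ), y, hy, ?_⟩
      rw [zpow_natCast, e1, mul_assoc (α * ε⁻¹)]
  · rintro ⟨i, y, hy, rfl⟩
    have hmz : (0 : ℤ) < M := by exact_mod_cast (by omega : 0 < M)
    have hr0 : 0 ≤ i % M := Int.emod_nonneg _ hmz.ne'
    have hrm : i % M < M := Int.emod_lt_of_pos _ hmz
    obtain ⟨r, hr⟩ := Int.eq_ofNat_of_zero_le hr0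
    have hy' : (g ^ M) ^ (i / M) * y ∈ H := H.mul_mem (H.zpow_mem hM _) hy
    have e : g ^ i * y = g ^ r * ((g ^ M) ^ (i / M) * y) := by
      rw [← mul_assoc]
      congr 1
      rw [← zpow_natCast g r, ← hr, ← zpow_natCast g M, ← zpow_mul, ← zpow_add]
      congr 1
      have := Int.emod_add_mul_ediv i M
      rw [this]
    rw [e]
    cases r with
    | zero =>
      left
      rw [pow_zero, one_mul]
      exact H.mul_mem (H.mul_mem hαH (H.inv_mem hεH)) hy'
    | succ r =>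
      right
      refine ⟨_, ⟨r, by omega, _, hy', rfl⟩, ?_⟩
      rw [e1, mul_assoc (α * ε⁻¹)]

theorem aux_add {Q : Type*} [AddCommGroup Q] (a b t x y z w s : Q) :
    a + t + ((x + y) + s) + -t + (-s + b + z + (w + t)) = a + b + (z + x) + (w + y + t) := by
  abel

theorem aux_mul {Q : Type*} [CommGroup Q] (a b t x y z w s : Q) :
    a * t * ((x * y) * s) * t⁻¹ * (s⁻¹ * b * z * (w * t)) = a * b * (z * x) * (w * y * t) :=
  aux_add (Q := Additive Q) a b t x y z w s

section ClassTwo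

variable {Q : Type*} [CommGroup Q] {π : G →* Q}

/-- joining blocks -/
theorem layers {A : Set G} (H : Subgroup G) {t ε g : G} (hg : ε * t = g) (htA : t ∈ A)
    (hA : ∀ x ∈ A, x⁻¹ ∈ A)
    (hcen : ∀ x y z : G, (x * y * x⁻¹ * y⁻¹) * z = z * (x * y * x⁻¹ * y⁻¹))
    (hε : Tr ⊥ A (H : Set G) ε) (M : ℕ) (hM2 : 2 ≤ M) (hM : g ^ M ∈ H)
    (hmin : ∀ i : ℕ, 0 < i → i < M → g ^ i ∉ H) (L : Subgroup G)
    (hL : ∀ x, x ∈ L ↔ (∀ z, x * z = z * x) ∧ ∃ i : ℤ, ∃ y ∈ H, x = g ^ i * y)
    (cs : List G) (hcs : ∀ c ∈ cs, ∃ e, Tr ⊥ A (H : Set G) e ∧ c = e * t * e⁻¹ * t⁻¹)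
    (hpw : (vis cs).Pairwise (fun x y => x⁻¹ * y ∉ L)) :
    ∀ α β, Tr ⊥ A (H : Set G) α → Tr ⊥ A (H : Set G) β → ∃ p,
      Tr ⊥ A {x | ∃ q ∈ vis cs, ∃ i : ℤ, ∃ y ∈ H, x = α * ε⁻¹ * (q⁻¹ * (g ^ i * y))} p ∧
      π p = π α * π β * π ε ^ ((cs.length + 1) * (M - 2)) *
        π t ^ ((cs.length + 1) * (M - 2) + 1) := by
  have hπg : π g = π ε * π t := by rw [← hg, map_mul]
  induction cs with
  | nil =>
    intro α β hα hβ
    refine ⟨_, (block H hg htA hε M hM2 hM hmin hα hβ).congr fun g => ?_, ?_⟩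
    · simp only [vis, List.mem_singleton, exists_eq_left, inv_one, one_mul]
    · simp only [map_mul, map_pow, List.length_nil, zero_add, one_mul, mul_pow, pow_succ, hπg]
      generalize π ε ^ (M - 2) = a
      generalize π t ^ (M - 2) = b
      simp only [mul_assoc, mul_comm, mul_left_comm]
  | cons c cs ih =>
    intro α β hα hβ
    rw [vis, List.pairwise_cons, List.pairwise_map] at hpw
    obtain ⟨hp1, hp2⟩ := hpw
    have hpw' : (vis cs).Pairwise (fun x y => x⁻¹ * y ∉ L) := by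
      refine hp2.imp ?_
      intro x y hxy
      have e : (c * x)⁻¹ * (c * y) = x⁻¹ * y := by group
      rwa [e] at hxy
    have hnL : ∀ x ∈ vis cs, c * x ∉ L := by
      intro x hx
      have := hp1 (c * x) (List.mem_map.2 ⟨x, hx, rfl⟩)
      rwa [inv_one, one_mul] at this
    obtain ⟨e₁, he₁, hc⟩ := hcs c (by simp)
    -- everything is central
    have hvc : ∀ x ∈ vis cs, x ∈ Subgroup.center G := by
      apply mem_of_mem_vis
      intro a ha
      obtain ⟨e, _, rfl⟩ := hcs a (by simp [ha])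
      rw [Subgroup.mem_center_iff]
      exact fun z => (hcen _ _ z).symm
    have hcc : c ∈ Subgroup.center G := by
      rw [hc, Subgroup.mem_center_iff]
      exact fun z => (hcen _ _ z).symm
    obtain ⟨p', hp', hπ'⟩ := ih (fun c hc => hcs c (by simp [hc])) hpw' e₁⁻¹ β (he₁.rev hA) hβ
    have h1 := block H hg htA hε M hM2 hM hmin hα he₁
    have ht : t = ε⁻¹ * g := by rw [← hg]; group
    have key : ∀ q ∈ vis cs, ∀ (i : ℤ) (y : G),
        α * t * (g ^ (M - 2) * e₁) * t⁻¹ * (e₁⁻¹ * ε⁻¹ * (q⁻¹ * (g ^ i * y))) =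
          α * ε⁻¹ * ((c * q)⁻¹ * (g ^ ((M - 2 : ℕ) + i : ℤ) * y)) := by
      intro q hq i y
      have e1 : α * t * (g ^ (M - 2) * e₁) * t⁻¹ * (e₁⁻¹ * ε⁻¹ * (q⁻¹ * (g ^ i * y))) =
          α * ε⁻¹ * g ^ (M - 2) * ε * (t * e₁ * t⁻¹ * e₁⁻¹) * ε⁻¹ * q⁻¹ * g ^ i * y := by
        rw [ht]; group
      have e2 : t * e₁ * t⁻¹ * e₁⁻¹ = c⁻¹ := by rw [hc]; group
      have h3 := Subgroup.mem_center_iff.1 (Subgroup.inv_mem _ hcc)
      have h4 := Subgroup.mem_center_iff.1 (Subgroup.inv_mem _ (hvc q hq))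
      rw [e1, e2]
      calc α * ε⁻¹ * g ^ (M - 2) * ε * c⁻¹ * ε⁻¹ * q⁻¹ * g ^ i * y
          = α * ε⁻¹ * ((g ^ (M - 2) * ε) * c⁻¹) * ε⁻¹ * q⁻¹ * g ^ i * y := by group
        _ = α * ε⁻¹ * (c⁻¹ * (g ^ (M - 2) * ε)) * ε⁻¹ * q⁻¹ * g ^ i * y := by rw [h3]
        _ = α * ε⁻¹ * c⁻¹ * (g ^ (M - 2) * q⁻¹) * g ^ i * y := by group
        _ = α * ε⁻¹ * c⁻¹ * (q⁻¹ * g ^ (M - 2)) * g ^ i * y := by rw [h4]
        _ = α * ε⁻¹ * (c⁻¹ * q⁻¹) * (g ^ (M - 2) * g ^ i) * y := by group
        _ = α * ε⁻¹ * (q⁻¹ * c⁻¹) * (g ^ (M - 2) * g ^ i) * y := by rw [h3]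
        _ = α * ε⁻¹ * ((c * q)⁻¹ * (g ^ ((M - 2 : ℕ) + i : ℤ) * y)) := by
            rw [zpow_add, zpow_natCast]; group
    have h2 := h1.append (hA t htA) hp' (by
      rintro _ ⟨q, hq, i, y, hy, rfl⟩ ⟨j, y', hy', he⟩
      rw [key q hq i y, mul_left_cancel_iff] at he
      refine hnL q hq ?_
      rw [← L.inv_mem_iff, hL]
      have hcq := Subgroup.mem_center_iff.1
        (Subgroup.inv_mem _ (Subgroup.mul_mem _ hcc (hvc q hq)))
      refine ⟨fun z => (hcq z).symm, j - ((M - 2 : ℕ) + i : ℤ), y' * y⁻¹,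
        H.mul_mem hy' (H.inv_mem hy), ?_⟩
      have e1 : (c * q)⁻¹ = g ^ j * y' * y⁻¹ * (g ^ ((M - 2 : ℕ) + i : ℤ))⁻¹ := by
        rw [← mul_assoc] at he
        rw [← he]; group
      have e2 := hcq ((g ^ ((M - 2 : ℕ) + i : ℤ))⁻¹)
      calc (c * q)⁻¹ = (g ^ ((M - 2 : ℕ) + i : ℤ))⁻¹ * (c * q)⁻¹ * g ^ ((M - 2 : ℕ) + i : ℤ) := by
            rw [e2]; group
        _ = g ^ (j - ((M - 2 : ℕ) + i : ℤ)) * (y' * y⁻¹) := by
            rw [e1]; group)
    refine ⟨_, h2.congr fun x => ⟨?_, ?_⟩, ?_⟩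
    · rintro (⟨i, y, hy, rfl⟩ | ⟨_, ⟨q, hq, i, y, hy, rfl⟩, rfl⟩)
      · exact ⟨1, one_mem_vis _, i, y, hy, by rw [inv_one, one_mul]⟩
      · refine ⟨c * q, ?_, _, y, hy, key q hq i y⟩
        simp only [vis, List.mem_cons, List.mem_map]
        exact Or.inr ⟨q, hq, rfl⟩
    · rintro ⟨q, hq, i, y, hy, rfl⟩
      simp only [vis, List.mem_cons, List.mem_map] at hq
      rcases hq with rfl | ⟨q, hq, rfl⟩
      · exact Or.inl ⟨i, y, hy, by rw [inv_one, one_mul]⟩
      · right
        refine ⟨_, ⟨q, hq, i - ((M - 2 : ℕ) : ℤ), y, hy, rfl⟩, ?_⟩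
        rw [key q hq, add_sub_cancel]
    · rw [map_mul, hπ']
      simp only [map_mul, map_pow, map_inv, List.length_cons, hπg, mul_pow]
      rw [add_mul (cs.length + 1) 1, one_mul, pow_succ, pow_succ, pow_add, pow_add]
      exact aux_mul _ _ _ _ _ _ _ _

/-- one more generator -/
theorem step [Finite G] {A : Set G} (hA : ∀ x ∈ A, x⁻¹ ∈ A)
    (hπ : ∀ x, π x = 1 → x ∈ Subgroup.center G)
    (H H' : Subgroup G) {t : G} (htA : t ∈ A) (htH : t ∉ H) (hHH' : H ≤ H') (htH' : t ∈ H')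
    (hH' : ∀ K : Subgroup G, H ≤ K → t ∈ K → H' ≤ K)
    (hgen : ∀ h ∈ H, π h ∈ Subgroup.closure (π '' {e | Tr ⊥ A (H : Set G) e}))
    {ε : G} (hε : Tr ⊥ A (H : Set G) ε) :
    ∃ M b : ℕ, 2 ≤ M ∧ (ε * t) ^ M ∈ H ∧ ∀ α β, Tr ⊥ A (H : Set G) α → Tr ⊥ A (H : Set G) β →
      ∃ p, Tr ⊥ A (H' : Set G) p ∧
        π p = π α * π β * π ε ^ (b * (M - 2)) * π t ^ (b * (M - 2) + 1) := by
  classical
  have : Fintype G := Fintype.ofFinite G
  obtain ⟨g, hg⟩ : ∃ g, ε * t = g := ⟨_, rfl⟩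
  have ht : t = ε⁻¹ * g := by rw [← hg]; group
  have hεH : ε ∈ H := hε.mem
  have hgH : g ∉ H := by
    rw [← hg]
    exact fun h => htH ((H.mul_mem_cancel_left hεH).1 h)
  have hgH' : g ∈ H' := by
    rw [← hg]
    exact H'.mul_mem (hHH' hεH) htH'
  have hex : ∃ m : ℕ, 0 < m ∧ g ^ m ∈ H :=
    ⟨orderOf g, orderOf_pos _, by rw [pow_orderOf_eq_one]; exact H.one_mem⟩
  obtain ⟨hm0, hmH⟩ := Nat.find_spec hex
  have hmin : ∀ i : ℕ, 0 < i → i < Nat.find hex → g ^ i ∉ H :=
    fun i h0 h1 h => Nat.find_min hex h1 ⟨h0, h⟩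
  generalize Nat.find hex = M at hm0 hmH hmin
  have hM2 : 2 ≤ M := by
    by_contra h
    have h1 : M = 1 := by omega
    rw [h1, pow_one] at hmH
    exact hgH hmH
  have hc : ∀ x y : G, x * y * x⁻¹ * y⁻¹ ∈ Subgroup.center G := fun x y => hπ _ (by
    simp only [map_mul, map_inv]
    rw [mul_comm (π x) (π y), mul_inv_cancel_right, mul_inv_cancel])
  have hcen : ∀ x y z : G, (x * y * x⁻¹ * y⁻¹) * z = z * (x * y * x⁻¹ * y⁻¹) := fun x y z =>
    (Subgroup.mem_center_iff.1 (hc x y) z).symm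
  let L : Subgroup G :=
    { carrier := {x | x ∈ Subgroup.center G ∧ ∃ i : ℤ, ∃ y ∈ H, x = g ^ i * y}
      one_mem' := ⟨Subgroup.one_mem _, 0, 1, H.one_mem, by simp⟩
      mul_mem' := by
        rintro x x' ⟨hx, i, y, hy, hxy⟩ ⟨hx', i', y', hy', hxy'⟩
        refine ⟨Subgroup.mul_mem _ hx hx', i + i', y' * y, H.mul_mem hy' hy, ?_⟩
        have e := Subgroup.mem_center_iff.1 hx' y
        calc x * x' = g ^ i * (y * x') := by rw [hxy]; group
          _ = g ^ i * (x' * y) := by rw [e]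
          _ = g ^ (i + i') * (y' * y) := by rw [hxy']; group
      inv_mem' := by
        rintro x ⟨hx, i, y, hy, hxy⟩
        refine ⟨Subgroup.inv_mem _ hx, -i, y⁻¹, H.inv_mem hy, ?_⟩
        have e := Subgroup.mem_center_iff.1 (Subgroup.inv_mem _ hx) (g ^ i)
        calc x⁻¹ = g ^ (-i) * (g ^ i * x⁻¹) := by group
          _ = g ^ (-i) * (x⁻¹ * g ^ i) := by rw [e]
          _ = g ^ (-i) * y⁻¹ := by rw [hxy]; group }
  have hL : ∀ x, x ∈ L ↔ (∀ z, x * z = z * x) ∧ ∃ i : ℤ, ∃ y ∈ H, x = g ^ i * y := by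
    intro x
    refine and_congr_left fun _ => ?_
    rw [Subgroup.mem_center_iff]
    exact forall_congr' fun z => eq_comm
  have hLc : ∀ x ∈ L, x ∈ Subgroup.center G := fun x hx => hx.1
  let N : Subgroup G := Subgroup.center G ⊓ H'
  have hN : ∀ x ∈ N, ∀ y ∈ N, x * y = y * x := fun x _ y hy => Subgroup.mem_center_iff.1 hy.1 x
  have hLN : L ≤ N := by
    rintro x ⟨hx, i, y, hy, rfl⟩
    exact ⟨hx, H'.mul_mem (H'.zpow_mem hgH' i) (hHH' hy)⟩
  let Z : Finset G := Finset.univ.filter fun c =>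
    ∃ e, Tr ⊥ A (H : Set G) e ∧ c = e * t * e⁻¹ * t⁻¹
  obtain ⟨J, hJN, hLJ, hZJ, _, cs, hcs1, hcs2, hcs3, _⟩ := transversal N L hN hLN Z (by
    intro z hz
    simp only [Z, Finset.mem_filter, Finset.mem_univ, true_and] at hz
    obtain ⟨e, he, rfl⟩ := hz
    exact ⟨hc e t, H'.mul_mem (H'.mul_mem (H'.mul_mem (hHH' he.mem) htH')
      (H'.inv_mem (hHH' he.mem))) (H'.inv_mem htH')⟩)
  have hJc : ∀ x ∈ J, x ∈ Subgroup.center G := fun x hx => (hJN hx).1
  have hcs : ∀ c ∈ cs, ∃ e, Tr ⊥ A (H : Set G) e ∧ c = e * t * e⁻¹ * t⁻¹ := by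
    intro c hc
    have := hcs1 c hc
    simpa [Z] using this
  -- commutators with `t`
  let T : Subgroup G :=
    { carrier := {x | x * t * x⁻¹ * t⁻¹ ∈ J}
      one_mem' := by
        have e : (1 : G) * t * 1⁻¹ * t⁻¹ = 1 := by group
        rw [Set.mem_ofPred_eq, e]
        exact J.one_mem
      mul_mem' := by
        intro x y hx hy
        rw [Set.mem_ofPred_eq] at hx hy ⊢
        have e : (x * y) * t * (x * y)⁻¹ * t⁻¹ =
            (x * t * x⁻¹ * t⁻¹) * (y * t * y⁻¹ * t⁻¹) := by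
          have h1 := Subgroup.mem_center_iff.1 (hc y t) (x * t * x⁻¹ * t⁻¹)
          have h2 := Subgroup.mem_center_iff.1 (hc y t) x
          calc (x * y) * t * (x * y)⁻¹ * t⁻¹
              = (x * (y * t * y⁻¹ * t⁻¹)) * t * x⁻¹ * t⁻¹ := by group
            _ = ((y * t * y⁻¹ * t⁻¹) * x) * t * x⁻¹ * t⁻¹ := by rw [h2]
            _ = (y * t * y⁻¹ * t⁻¹) * (x * t * x⁻¹ * t⁻¹) := by group
            _ = (x * t * x⁻¹ * t⁻¹) * (y * t * y⁻¹ * t⁻¹) := h1.symm
        rw [e]
        exact J.mul_mem hx hy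
      inv_mem' := by
        intro x hx
        rw [Set.mem_ofPred_eq] at hx ⊢
        have e : x⁻¹ * t * x⁻¹⁻¹ * t⁻¹ = (x * t * x⁻¹ * t⁻¹)⁻¹ := by
          have h1 := Subgroup.mem_center_iff.1 (Subgroup.inv_mem _ (hc x t)) x⁻¹
          calc x⁻¹ * t * x⁻¹⁻¹ * t⁻¹ = (x⁻¹ * (x * t * x⁻¹ * t⁻¹)⁻¹) * x := by group
            _ = ((x * t * x⁻¹ * t⁻¹)⁻¹ * x⁻¹) * x := by rw [h1]
            _ = (x * t * x⁻¹ * t⁻¹)⁻¹ := by group
        rw [e]
        exact J.inv_mem hx }
  have hTE : Subgroup.closure {e | Tr ⊥ A (H : Set G) e} ≤ T := by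
    rw [Subgroup.closure_le]
    intro e he
    exact hZJ _ (by simp only [Z, Finset.mem_filter, Finset.mem_univ, true_and]; exact ⟨e, he, rfl⟩)
  have hHT : ∀ h ∈ H, h * t * h⁻¹ * t⁻¹ ∈ J := by
    intro h hh
    have h1 := hgen h hh
    rw [← MonoidHom.map_closure, Subgroup.mem_map] at h1
    obtain ⟨x, hx, hxh⟩ := h1
    have h2 : x⁻¹ * h ∈ Subgroup.center G := hπ _ (by rw [map_mul, map_inv, hxh, inv_mul_cancel])
    have h3 : x⁻¹ * h ∈ T := by
      have e : (x⁻¹ * h) * t * (x⁻¹ * h)⁻¹ * t⁻¹ = 1 := by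
        rw [← Subgroup.mem_center_iff.1 h2 t]; group
      have h4 : (x⁻¹ * h) * t * (x⁻¹ * h)⁻¹ * t⁻¹ ∈ J := by rw [e]; exact J.one_mem
      exact h4
    have h5 : h ∈ T := by
      have e : h = x * (x⁻¹ * h) := by group
      rw [e]
      exact T.mul_mem (hTE hx) h3
    exact h5
  have hcomm : ∀ y ∈ H, ∀ j : ℤ, ∃ c ∈ J, ∃ u ∈ H, y * g ^ j = c * (g ^ j * (u * y)) := by
    intro y hy j
    refine ⟨(y * t * y⁻¹ * t⁻¹) ^ j, J.zpow_mem (hHT y hy) j, (y * ε * y⁻¹ * ε⁻¹) ^ j,
      H.zpow_mem (H.mul_mem (H.mul_mem (H.mul_mem hy hεH) (H.inv_mem hy)) (H.inv_mem hεH)) j, ?_⟩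
    have h1 : y * g * y⁻¹ = ((y * t * y⁻¹ * t⁻¹) * (y * ε * y⁻¹ * ε⁻¹)) * g := by
      have h2 := hcen y t (y * ε * y⁻¹)
      calc y * g * y⁻¹ = (y * ε * y⁻¹) * (y * t * y⁻¹ * t⁻¹) * t := by rw [← hg]; group
        _ = (y * t * y⁻¹ * t⁻¹) * (y * ε * y⁻¹) * t := by rw [h2]
        _ = ((y * t * y⁻¹ * t⁻¹) * (y * ε * y⁻¹ * ε⁻¹)) * g := by rw [← hg]; group
    have h2 : Commute ((y * t * y⁻¹ * t⁻¹) * (y * ε * y⁻¹ * ε⁻¹)) g :=
      (Subgroup.mem_center_iff.1 (Subgroup.mul_mem _ (hc y t) (hc y ε)) g).symm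
    have h3 : Commute (y * t * y⁻¹ * t⁻¹) (y * ε * y⁻¹ * ε⁻¹) := hcen y t _
    have h4 : Commute (g ^ j) ((y * ε * y⁻¹ * ε⁻¹) ^ j) :=
      Subgroup.mem_center_iff.1 (Subgroup.zpow_mem _ (hc y ε) j) (g ^ j)
    calc y * g ^ j = (y * g ^ j * y⁻¹) * y := by group
      _ = (y * g * y⁻¹) ^ j * y := by rw [conj_zpow]
      _ = (y * t * y⁻¹ * t⁻¹) ^ j * (y * ε * y⁻¹ * ε⁻¹) ^ j * g ^ j * y := by
          rw [h1, h2.mul_zpow, h3.mul_zpow]
      _ = (y * t * y⁻¹ * t⁻¹) ^ j * ((y * ε * y⁻¹ * ε⁻¹) ^ j * g ^ j) * y := by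
          simp only [mul_assoc]
      _ = (y * t * y⁻¹ * t⁻¹) ^ j * (g ^ j * (y * ε * y⁻¹ * ε⁻¹) ^ j) * y := by rw [h4.eq]
      _ = _ := by simp only [mul_assoc]
  let K : Subgroup G :=
    { carrier := {x | ∃ c ∈ J, ∃ i : ℤ, ∃ y ∈ H, x = c * (g ^ i * y)}
      one_mem' := ⟨1, J.one_mem, 0, 1, H.one_mem, by simp⟩
      mul_mem' := by
        rintro _ _ ⟨c, hc', i, y, hy, rfl⟩ ⟨c', hc'', i', y', hy', rfl⟩
        obtain ⟨c₁, hc₁, u, hu, e⟩ := hcomm y hy i'
        refine ⟨c * c' * c₁, J.mul_mem (J.mul_mem hc' hc'') hc₁, i + i', u * y * y',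
          H.mul_mem (H.mul_mem hu hy) hy', ?_⟩
        have h1 := Subgroup.mem_center_iff.1 (hJc c' hc'') (g ^ i * y)
        have h2 := Subgroup.mem_center_iff.1 (hJc c₁ hc₁) (g ^ i)
        calc c * (g ^ i * y) * (c' * (g ^ i' * y'))
            = c * ((g ^ i * y) * c') * (g ^ i' * y') := by group
          _ = c * (c' * (g ^ i * y)) * (g ^ i' * y') := by rw [h1]
          _ = c * c' * g ^ i * (y * g ^ i') * y' := by group
          _ = c * c' * (g ^ i * c₁) * g ^ i' * u * y * y' := by rw [e]; group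
          _ = c * c' * (c₁ * g ^ i) * g ^ i' * u * y * y' := by rw [h2]
          _ = c * c' * c₁ * (g ^ (i + i') * (u * y * y')) := by group
      inv_mem' := by
        rintro _ ⟨c, hc', i, y, hy, rfl⟩
        obtain ⟨c₁, hc₁, u, hu, e⟩ := hcomm y⁻¹ (H.inv_mem hy) (-i)
        refine ⟨c⁻¹ * c₁, J.mul_mem (J.inv_mem hc') hc₁, -i, u * y⁻¹,
          H.mul_mem hu (H.inv_mem hy), ?_⟩
        have h1 := Subgroup.mem_center_iff.1 (Subgroup.inv_mem _ (hJc c hc')) (y⁻¹ * g ^ (-i))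
        calc (c * (g ^ i * y))⁻¹ = (y⁻¹ * g ^ (-i)) * c⁻¹ := by group
          _ = c⁻¹ * (y⁻¹ * g ^ (-i)) := h1
          _ = c⁻¹ * c₁ * (g ^ (-i) * (u * y⁻¹)) := by rw [e]; group }
  have hHK : H ≤ K := fun x hx => ⟨1, J.one_mem, 0, x, hx, by simp⟩
  have hgK : g ∈ K := ⟨1, J.one_mem, 1, 1, H.one_mem, by simp⟩
  have hH'K : H' ≤ K := hH' K hHK (by rw [ht]; exact K.mul_mem (K.inv_mem (hHK hεH)) hgK)
  refine ⟨M, cs.length + 1, hM2, by rw [hg]; exact hmH, ?_⟩
  intro α β hα hβ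
  obtain ⟨p, hp, hπp⟩ := layers (π := π) H hg htA hA hcen hε M hM2 hmH hmin L hL cs hcs hcs2 α β
    hα hβ
  refine ⟨p, hp.congr fun x => ⟨?_, ?_⟩, hπp⟩
  · rintro ⟨q, hq, i, y, hy, rfl⟩
    have hqJ : q ∈ J := (hcs3 q).2 ⟨q, hq, by rw [inv_mul_cancel]; exact L.one_mem⟩
    exact H'.mul_mem (H'.mul_mem (hHH' hα.mem) (H'.inv_mem (hHH' hεH)))
      (H'.mul_mem (H'.inv_mem (hJN hqJ).2) (H'.mul_mem (H'.zpow_mem hgH' i) (hHH' hy)))
  · intro hx
    have h1 : (α * ε⁻¹)⁻¹ * x ∈ K :=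
      hH'K (H'.mul_mem (H'.inv_mem (H'.mul_mem (hHH' hα.mem) (H'.inv_mem (hHH' hεH)))) hx)
    obtain ⟨c, hcJ, i, y, hy, e⟩ := h1
    obtain ⟨q, hq, hql⟩ := (hcs3 c⁻¹).1 (J.inv_mem hcJ)
    have hl := L.inv_mem hql
    obtain ⟨hlc, j, y₀, hy₀, hle⟩ := hl
    refine ⟨q, hq, i + j, y₀ * y, H.mul_mem hy₀ hy, ?_⟩
    have h2 := Subgroup.mem_center_iff.1 hlc (g ^ i)
    have h3 := Subgroup.mem_center_iff.1 hlc (q⁻¹)
    have e1 : x = α * ε⁻¹ * (c * (g ^ i * y)) := by rw [← e]; group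
    have e2 : c = q⁻¹ * (q⁻¹ * c⁻¹)⁻¹ := by rw [h3]; group
    rw [e1]
    calc α * ε⁻¹ * (c * (g ^ i * y)) = α * ε⁻¹ * ((q⁻¹ * (q⁻¹ * c⁻¹)⁻¹) * (g ^ i * y)) := by
          rw [← e2]
      _ = α * ε⁻¹ * (q⁻¹ * ((q⁻¹ * c⁻¹)⁻¹ * g ^ i) * y) := by simp only [mul_assoc]
      _ = α * ε⁻¹ * (q⁻¹ * (g ^ i * (q⁻¹ * c⁻¹)⁻¹) * y) := by rw [h2]
      _ = α * ε⁻¹ * (q⁻¹ * (g ^ (i + j) * (y₀ * y))) := by rw [hle]; group

end ClassTwo

/-- the ends of the Hamiltonian walks generate the group modulo commutators -/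
theorem ends [Finite G] {Q : Type*} [CommGroup Q] {π : G →* Q} {A : Set G}
    (hA : ∀ x ∈ A, x⁻¹ ∈ A) (hπ : ∀ x, π x = 1 → x ∈ Subgroup.center G) :
    ∀ B : Finset G, (∀ b ∈ B, b ∈ A) →
      (∃ e, Tr ⊥ A (Subgroup.closure (B : Set G) : Set G) e) ∧
      ∀ h ∈ Subgroup.closure (B : Set G), π h ∈ Subgroup.closure
        (π '' {e | Tr ⊥ A (Subgroup.closure (B : Set G) : Set G) e}) := by
  classical
  intro B
  induction B using Finset.strongInduction with
  | H B ih =>
  intro hB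
  by_cases hred : ∃ t ∈ B, t ∈ Subgroup.closure ((B.erase t : Finset G) : Set G)
  · obtain ⟨t, htB, ht⟩ := hred
    have h1 := ih (B.erase t) (Finset.erase_ssubset htB)
      (fun b hb => hB b (Finset.mem_of_mem_erase hb))
    have e : Subgroup.closure (B : Set G) =
        Subgroup.closure ((B.erase t : Finset G) : Set G) := by
      apply le_antisymm
      · rw [Subgroup.closure_le]
        intro b hb
        by_cases hbt : b = t
        · rw [hbt]; exact ht
        · exact Subgroup.subset_closure (Finset.mem_coe.2 (Finset.mem_erase.2 ⟨hbt, hb⟩))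
      · exact Subgroup.closure_mono (Finset.coe_subset.2 (Finset.erase_subset _ _))
    rw [e]
    exact h1
  · push Not at hred
    rcases B.eq_empty_or_nonempty with rfl | ⟨t₀, ht₀⟩
    · rw [Finset.coe_empty, Subgroup.closure_empty]
      refine ⟨⟨1, tr_one ⊥ A⟩, ?_⟩
      intro h hh
      rw [Subgroup.mem_bot] at hh
      rw [hh, map_one]
      exact Subgroup.one_mem _
    · by_cases hone : B = {t₀}
      · subst hone
        have ht1 : t₀ ≠ 1 := by
          rintro rfl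
          exact hred 1 ht₀ (Subgroup.one_mem _)
        have hord : 0 < orderOf t₀ := orderOf_pos t₀
        have h1 := (tr_one ⊥ A).rep (hB t₀ ht₀) (orderOf t₀ - 1) (by
          intro i hi0 hi y hy hmem
          rw [SetLike.mem_coe, Subgroup.mem_bot] at hy hmem
          rw [hy, one_mul, mul_one] at hmem
          exact pow_ne_one_of_lt_orderOf (by omega) (by omega) hmem)
        rw [one_mul, mul_one] at h1
        have h2 : Tr ⊥ A (Subgroup.closure (({t₀} : Finset G) : Set G) : Set G)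
            (t₀ ^ (orderOf t₀ - 1)) := by
          refine h1.congr fun x => ?_
          rw [Finset.coe_singleton, ← Subgroup.zpowers_eq_closure, SetLike.mem_coe,
            mem_zpowers_iff_mem_range_orderOf, Finset.mem_image]
          constructor
          · rintro ⟨i, hi, y, hy, rfl⟩
            rw [SetLike.mem_coe, Subgroup.mem_bot] at hy
            exact ⟨i, Finset.mem_range.2 (by omega), by rw [hy, mul_one]⟩
          · rintro ⟨i, hi, rfl⟩
            rw [Finset.mem_range] at hi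
            exact ⟨i, by omega, 1, by simp, by simp⟩
        refine ⟨⟨_, h2⟩, ?_⟩
        have h3 : ∀ x ∈ Subgroup.closure (({t₀} : Finset G) : Set G), x ∈ Subgroup.comap π
            (Subgroup.closure (π '' {e | Tr ⊥ A (Subgroup.closure (({t₀} : Finset G) : Set G)
              : Set G) e})) := by
          intro x hx
          refine (Subgroup.closure_le _).2 ?_ hx
          intro b hb
          rw [Finset.mem_coe, Finset.mem_singleton] at hb
          subst hb
          have h4 : π (b ^ (orderOf b - 1)) ∈ Subgroup.closure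
              (π '' {e | Tr ⊥ A (Subgroup.closure (({b} : Finset G) : Set G) : Set G) e}) :=
            Subgroup.subset_closure ⟨_, h2, rfl⟩
          have h5 : b = (b ^ (orderOf b - 1))⁻¹ := by
            rw [eq_inv_iff_mul_eq_one, ← pow_succ', Nat.sub_add_cancel hord, pow_orderOf_eq_one]
          have h6 : π b = (π (b ^ (orderOf b - 1)))⁻¹ := by rw [← map_inv, ← h5]
          rw [SetLike.mem_coe, Subgroup.mem_comap, h6]
          exact Subgroup.inv_mem _ h4
        exact h3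
      · -- at least two generators
        have hoth : ∀ t ∈ B, ∃ t' ∈ B, t' ≠ t := by
          intro t ht
          by_contra hno
          push Not at hno
          apply hone
          ext x
          rw [Finset.mem_singleton]
          constructor
          · intro hx
            rw [hno x hx, hno t₀ ht₀]
          · rintro rfl
            exact ht₀
        have hIH := fun t (ht : t ∈ B) => ih (B.erase t) (Finset.erase_ssubset ht)
          (fun b hb => hB b (Finset.mem_of_mem_erase hb))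
        have hst := fun t (ht : t ∈ B) (ε : G) (hε : Tr ⊥ A (Subgroup.closure
            ((B.erase t : Finset G) : Set G) : Set G) ε) =>
          step (π := π) hA hπ (Subgroup.closure ((B.erase t : Finset G) : Set G))
            (Subgroup.closure (B : Set G)) (hB t ht) (hred t ht)
            (Subgroup.closure_mono (Finset.coe_subset.2 (Finset.erase_subset _ _)))
            (Subgroup.subset_closure (Finset.mem_coe.2 ht))
            (by
              intro K h1 h2
              rw [Subgroup.closure_le]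
              intro b hb
              by_cases hbt : b = t
              · rw [hbt]; exact h2
              · exact h1 (Subgroup.subset_closure
                  (Finset.mem_coe.2 (Finset.mem_erase.2 ⟨hbt, hb⟩))))
            (hIH t ht).2 hε
        have hne : ∃ e, Tr ⊥ A (Subgroup.closure (B : Set G) : Set G) e := by
          obtain ⟨ε, hε⟩ := (hIH t₀ ht₀).1
          obtain ⟨M, b, _, _, h⟩ := hst t₀ ht₀ ε hε
          obtain ⟨p, hp, _⟩ := h ε ε hε hε
          exact ⟨p, hp⟩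
        refine ⟨hne, ?_⟩
        set S : Subgroup Q := Subgroup.closure
          (π '' {e | Tr ⊥ A (Subgroup.closure (B : Set G) : Set G) e}) with hSdef
        have hS : ∀ e, Tr ⊥ A (Subgroup.closure (B : Set G) : Set G) e → π e ∈ S :=
          fun e he => Subgroup.subset_closure ⟨e, he, rfl⟩
        -- products of two ends
        have hprod : ∀ t ∈ B, ∀ α α', Tr ⊥ A (Subgroup.closure
            ((B.erase t : Finset G) : Set G) : Set G) α → Tr ⊥ A (Subgroup.closure
            ((B.erase t : Finset G) : Set G) : Set G) α' → π α * π α' ∈ S := by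
          intro t ht α α' hα hα'
          obtain ⟨M, b, _, _, h⟩ := hst t ht α hα
          obtain ⟨p₁, hp₁, e₁⟩ := h α α hα hα
          obtain ⟨p₂, hp₂, e₂⟩ := h α'⁻¹ α (hα'.rev hA) hα
          have h1 := S.mul_mem (hS p₁ hp₁) (S.inv_mem (hS p₂ hp₂))
          have e : π p₁ * (π p₂)⁻¹ = π α * π α' := by
            rw [e₁, e₂, map_inv, mul_assoc (π α * π α), mul_assoc ((π α')⁻¹ * π α)]
            generalize π α ^ (b * (M - 2)) * π t ^ (b * (M - 2) + 1) = w
            rw [mul_inv_rev, mul_inv_rev, inv_inv, mul_assoc (π α * π α),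
              mul_inv_cancel_left, mul_assoc, mul_inv_cancel_left]
          rwa [e] at h1
        have hsq : ∀ t ∈ B, ∀ h ∈ Subgroup.closure ((B.erase t : Finset G) : Set G),
            π h ^ 2 ∈ S := by
          intro t ht h hh
          have h1 := (hIH t ht).2 h hh
          have h2 : Subgroup.closure (π '' {e | Tr ⊥ A (Subgroup.closure
              ((B.erase t : Finset G) : Set G) : Set G) e}) ≤ S.comap (powMonoidHom 2) := by
            rw [Subgroup.closure_le]
            rintro _ ⟨e, he, rfl⟩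
            rw [SetLike.mem_coe, Subgroup.mem_comap, powMonoidHom_apply, pow_two]
            exact hprod t ht e e he he
          exact h2 h1
        have hsqB : ∀ t ∈ B, π t ^ 2 ∈ S := by
          intro t ht
          obtain ⟨t', ht', hne'⟩ := hoth t ht
          exact hsq t' ht' t (Subgroup.subset_closure
            (Finset.mem_coe.2 (Finset.mem_erase.2 ⟨hne'.symm, ht⟩)))
        have heven : ∀ x : Q, x ^ 2 ∈ S → ∀ n, Even n → x ^ n ∈ S := by
          rintro x hx n ⟨m, rfl⟩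
          have e : x ^ (m + m) = (x ^ 2) ^ m := by rw [← pow_mul]; congr 1; omega
          rw [e]
          exact S.pow_mem hx m
        have hodd : ∀ x : Q, x ^ 2 ∈ S → ∀ n, Odd n → x ^ n ∈ S → x ∈ S := by
          rintro x hx n ⟨m, rfl⟩ h
          rw [pow_succ, pow_mul] at h
          exact (S.mul_mem_cancel_left (S.pow_mem hx m)).1 h
        have hall : ∀ t ∈ B, π t ∈ S := by
          intro t ht
          by_contra htS
          have hoddN : ∀ ε, Tr ⊥ A (Subgroup.closure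
              ((B.erase t : Finset G) : Set G) : Set G) ε → π ε ∈ S ∧ ∃ M : ℕ, Odd M ∧
              (ε * t) ^ M ∈ Subgroup.closure ((B.erase t : Finset G) : Set G) := by
            intro ε hε
            obtain ⟨M, b, hM2, hM, h⟩ := hst t ht ε hε
            obtain ⟨p, hp, e⟩ := h ε ε⁻¹ hε (hε.rev hA)
            have h1 := hS p hp
            rw [e, map_inv, mul_inv_cancel, one_mul] at h1
            have h2 : π ε ^ 2 ∈ S := hsq t ht ε hε.mem
            have h3 : π t ^ 2 ∈ S := hsqB t ht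
            rcases Nat.even_or_odd (b * (M - 2)) with hN | hN
            · exfalso
              apply htS
              have h4 := (S.mul_mem_cancel_left (heven _ h2 _ hN)).1 h1
              exact hodd _ h3 _ hN.add_one h4
            · have h4 := (S.mul_mem_cancel_right (heven _ h3 _ hN.add_one)).1 h1
              refine ⟨hodd _ h2 _ hN h4, M, ?_, hM⟩
              have h5 : Odd (M - 2) := (Nat.odd_mul.1 hN).2
              obtain ⟨m, hm⟩ := h5
              exact ⟨m + 1, by omega⟩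
          have hle : Subgroup.closure (π '' {e | Tr ⊥ A (Subgroup.closure
              ((B.erase t : Finset G) : Set G) : Set G) e}) ≤ S := by
            rw [Subgroup.closure_le]
            rintro _ ⟨e, he, rfl⟩
            exact (hoddN e he).1
          obtain ⟨ε, hε⟩ := (hIH t ht).1
          obtain ⟨h1, M, hM, h2⟩ := hoddN ε hε
          have h3 := hle ((hIH t ht).2 _ h2)
          rw [map_pow, map_mul, mul_pow] at h3
          have h4 := (S.mul_mem_cancel_left (S.pow_mem h1 M)).1 h3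
          exact htS (hodd _ (hsqB t ht) _ hM h4)
        intro h hh
        have hle : Subgroup.closure (B : Set G) ≤ S.comap π := by
          rw [Subgroup.closure_le]
          intro b hb
          exact hall b hb
        exact hle hh

/-- **Listing sequences for groups of class at most two.** Let `G` be a finite group whose
commutator subgroup is contained in its centre (a finite nilpotent group of class at most two).
Then every nonempty symmetric generating set `A` of `G` has a listing sequence: elements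
`a_1, …, a_n ∈ A`, where `n = |G|`, with pairwise distinct partial products
`a_1, a_1 a_2, …, a_1 ⋯ a_n`. -/
theorem result {G : Type u} [Group G] [Finite G] (hG : commutator G ≤ Subgroup.center G)
    (A : Set G) (hA : ∀ x ∈ A, x⁻¹ ∈ A) (hne : A.Nonempty) (hgen : Subgroup.closure A = ⊤) :
    ∃ a : Fin (Nat.card G) → G, (∀ i, a i ∈ A) ∧
      Function.Injective
        (fun k : Fin (Nat.card G) => ((List.ofFn a).take (k.val + 1)).prod) := by
  classical
  have : Fintype G := Fintype.ofFinite G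
  obtain ⟨⟨p, hp⟩, _⟩ := ends (π := (Abelianization.of : G →* Abelianization G)) hA (by
    intro x hx
    apply hG
    rw [← Abelianization.ker_of, MonoidHom.mem_ker]
    exact hx) (Finset.univ.filter fun x => x ∈ A) (fun b hb => by simpa using hb)
  have e : ((Finset.univ.filter fun x => x ∈ A : Finset G) : Set G) = A := by
    ext x
    simp
  rw [e, hgen, Subgroup.coe_top] at hp
  exact listing_of_tr hp hne

end Pool.Agent.Results.MP_688fd0_co.ClassTwo
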