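import Pool.Agent.N533.LC.Main

/-!
# Cycles of almost linear length in Cayley graphs

Let `A` be a symmetric generating set of a finite group `G` of order `N`, and suppose that for some
`r ≥ 1` at least `10 ^ 40 * r ^ 5` elements of `G` are products of at most `r` elements of `A` (for
`r = 1` this holds as soon as `A` has at least `10 ^ 40` elements). Then there are
`a_1, …, a_m ∈ A`, with product `1`, whose `m` initial products `a_1 ⋯ a_k` are pairwise distinct,
and with `N ≤ m * r ^ 4 * exp (600 * √(log N))`. In particular `m ≥ N ^ (1 - ε)` once `N` is large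
in terms of `ε` and `r`.
-/

open Real

namespace Pool.Agent.Results.MP_688fd0_co.NearLinearCycles

universe u

/-- `ball A r` is the set of the products of at most `r` elements of `A`: the ball of radius `r`
about the identity in the Cayley graph `Cay(G, A)`. -/
def ball {G : Type u} [Group G] (A : Set G) : ℕ → Set G
  | 0 => {1}
  | r + 1 => ball A r ∪ {x | ∃ y ∈ ball A r, ∃ a ∈ A, x = y * a}

/-- `ClosedSeq A l`: the entries `a_1, …, a_m` of the list `l` lie in `A`, the products
`a_1 ⋯ a_k` for `1 ≤ k ≤ m` are pairwise distinct, and `a_1 ⋯ a_m = 1`. -/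
structure ClosedSeq {G : Type u} [Group G] (A : Set G) (l : List G) : Prop where
  mem : ∀ a ∈ l, a ∈ A
  distinct : ∀ j k : ℕ, 1 ≤ j → j < k → k ≤ l.length → (l.take j).prod ≠ (l.take k).prod
  closed : l.prod = 1

section proofs

open Pool.Agent.N533.LC
open scoped Pointwise

variable {G : Type u} [Group G]

lemma sys_insert [Fintype G] [DecidableEq G] {A : Finset G} (hinv : ∀ a ∈ A, a⁻¹ ∈ A) :
    Sys (⊥ : Subgroup G) (insert 1 A) where
  one := Finset.mem_insert_self _ _
  inv := by
    intro x hx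
    rw [Finset.mem_insert] at hx ⊢
    rcases hx with rfl | hx
    · left; simp
    · right; exact hinv x hx
  left := by
    intro h hh x hx
    rw [Subgroup.mem_bot] at hh
    rwa [hh, one_mul]

lemma ball_eq [DecidableEq G] (A : Finset G) (r : ℕ) :
    ball (A : Set G) r = ((insert 1 A) ^ r : Finset G) := by
  induction r with
  | zero => rw [ball, pow_zero, Finset.coe_one, Set.singleton_one]
  | succ r ih =>
    rw [ball, ih]
    ext x
    simp only [Set.mem_union, Finset.mem_coe, Set.mem_ofPred_eq, pow_succ, Finset.mem_mul,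
      Finset.mem_insert]
    constructor
    · rintro (h | ⟨y, hy, a, ha, rfl⟩)
      · exact ⟨x, h, 1, Or.inl rfl, mul_one x⟩
      · exact ⟨y, hy, a, Or.inr ha, rfl⟩
    · rintro ⟨y, hy, a, rfl | ha, rfl⟩
      · left; rwa [mul_one]
      · right; exact ⟨y, hy, a, ha, rfl⟩

/-- A cycle of the Cayley graph gives a closed sequence. -/
lemma seq_of_cyc [Fintype G] [DecidableEq G] {A : Finset G} {n : ℕ} (hn : 2 ≤ n) {g : ℕ → G}
    (hg : CycF (⊥ : Subgroup G) (insert 1 A) n g) :
    ∃ l : List G, l.length = n ∧ ClosedSeq (A : Set G) l := by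
  set f : ℕ → G := fun i => g (i % n) with hf
  have hinj : ∀ i < n, ∀ j < n, g i = g j → i = j := by
    intro i hi j hj h
    exact hg.inj i hi j hj (by rw [h])
  have hstep : ∀ i < n, (f i)⁻¹ * f (i + 1) ∈ A := by
    intro i hi
    have h1 : f i = g i := by simp only [hf, Nat.mod_eq_of_lt hi]
    by_cases h : i + 1 < n
    · have h2 : f (i + 1) = g (i + 1) := by simp only [hf, Nat.mod_eq_of_lt h]
      have h3 := hg.step i h
      rw [Finset.mem_insert] at h3
      rw [h1, h2]
      refine h3.resolve_left fun h4 => ?_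
      have h5 : g i = g (i + 1) := by rwa [inv_mul_eq_one] at h4
      have := hinj i hi (i + 1) h h5
      omega
    · have e : i + 1 = n := by omega
      have h2 : f (i + 1) = g 0 := by simp only [hf, e, Nat.mod_self]
      have h3 := hg.close
      rw [Finset.mem_insert] at h3
      rw [h1, h2]
      have e2 : n - 1 = i := by omega
      rw [e2] at h3
      refine h3.resolve_left fun h4 => ?_
      have h5 : g i = g 0 := by rwa [inv_mul_eq_one] at h4
      have := hinj i hi 0 (by omega) h5
      omega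
  have hprod : ∀ k, ((List.range k).map fun i => (f i)⁻¹ * f (i + 1)).prod = (f 0)⁻¹ * f k := by
    intro k
    induction k with
    | zero => simp
    | succ k ih => rw [List.prod_range_succ, ih]; group
  have htake : ∀ k ≤ n, (((List.range n).map fun i => (f i)⁻¹ * f (i + 1)).take k).prod =
      (f 0)⁻¹ * f k := by
    intro k hk
    rw [← hprod k, ← List.map_take, List.take_range, min_eq_left hk]
  refine ⟨(List.range n).map fun i => (f i)⁻¹ * f (i + 1), by simp, ?_, ?_, ?_⟩
  · intro a ha
    obtain ⟨i, hi, rfl⟩ := List.mem_map.1 ha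
    exact hstep i (List.mem_range.1 hi)
  · intro j k hj hjk hk
    rw [List.length_map, List.length_range] at hk
    rw [htake j (by omega), htake k hk]
    intro h
    have h1 : f j = f k := mul_left_cancel h
    simp only [hf] at h1
    have h2 := hinj _ (Nat.mod_lt _ (by omega)) _ (Nat.mod_lt _ (by omega)) h1
    rw [Nat.mod_eq_of_lt (by omega : j < n)] at h2
    by_cases h3 : k < n
    · rw [Nat.mod_eq_of_lt h3] at h2
      omega
    · have h4 : k = n := by omega
      rw [h4, Nat.mod_self] at h2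
      omega
  · rw [hprod n]
    simp [hf]

/-- The quantitative form. -/
lemma quantitative [Finite G] (A : Set G) (hinv : ∀ a ∈ A, a⁻¹ ∈ A)
    (hgen : Subgroup.closure A = ⊤) (r : ℕ) (hr : 1 ≤ r)
    (hball : 10 ^ 40 * r ^ 5 ≤ (ball A r).ncard) :
    ∃ l : List G, ClosedSeq A l ∧
      (Nat.card G : ℝ) ≤ l.length * (r ^ 4 * exp (600 * √(log (Nat.card G)))) := by
  classical
  have : Fintype G := Fintype.ofFinite G
  obtain ⟨A, rfl⟩ : ∃ B : Finset G, (B : Set G) = A := ⟨A.toFinset, by simp⟩
  have hS := sys_insert (A := A) (by simpa using hinv)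
  have hbot : Nat.card (⊥ : Subgroup G) = 1 := by simp
  have hN : Nat.card (G ⧸ (⊥ : Subgroup G)) = Nat.card G := by
    rw [Subgroup.card_eq_card_quotient_mul_card_subgroup (⊥ : Subgroup G), hbot, mul_one]
  have hball' : (ball (A : Set G) r).ncard = Nv (⊥ : Subgroup G) (insert 1 A) r := by
    rw [ball_eq, Set.ncard_coe_finset, card_pow_eq hS hr, hbot, one_mul]
  have hgen' : Subgroup.closure ((insert 1 A : Finset G) : Set G) = ⊤ := by
    rw [Finset.coe_insert, Subgroup.closure_insert_one, hgen]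
  rw [hball'] at hball
  obtain ⟨n, g, hg, hn⟩ := main_bound hS hgen' hr hball
  rw [hN] at hn
  have hbig : 2 ≤ Nat.card G := by
    have h1 := hball.trans (Nv_le r)
    rw [hN] at h1
    have h2 : 10 ^ 40 ≤ 10 ^ 40 * r ^ 5 := Nat.le_mul_of_pos_right _ (by positivity)
    calc 2 ≤ 10 ^ 40 := by norm_num
      _ ≤ _ := h2.trans h1
  by_cases h2 : 2 ≤ n
  · obtain ⟨l, hl, hl2⟩ := seq_of_cyc h2 hg
    exact ⟨l, hl2, by rwa [hl]⟩
  · -- `n ≤ 1`: use a sequence of length two
    have hn1 : (n : ℝ) ≤ 2 := by exact_mod_cast (by omega : n ≤ 2)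
    obtain ⟨a, ha, ha1⟩ : ∃ a ∈ A, a ≠ 1 := by
      by_contra hcon
      push Not at hcon
      have h3 : Subgroup.closure (A : Set G) = ⊥ := by
        rw [Subgroup.closure_eq_bot_iff]
        intro x hx
        exact hcon x hx
      rw [hgen] at h3
      have h4 : Nat.card (⊤ : Subgroup G) = Nat.card (⊥ : Subgroup G) := by rw [h3]
      rw [hbot, Subgroup.card_top] at h4
      omega
    refine ⟨[a, a⁻¹], ⟨?_, ?_, by simp⟩, ?_⟩
    · intro b hb
      simp only [List.mem_cons, List.not_mem_nil, or_false] at hb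
      rcases hb with rfl | rfl
      · exact ha
      · exact hinv a ha
    · intro j k hj hjk hk
      have e1 : j = 1 := by
        simp only [List.length_cons, List.length_nil] at hk
        omega
      have e2 : k = 2 := by
        simp only [List.length_cons, List.length_nil] at hk
        omega
      subst e1 e2
      simpa using ha1
    · refine hn.trans ?_
      simp only [List.length_cons, List.length_nil]
      push_cast
      gcongr

end proofs

/-- **Closed sequences of almost linear length.** The first part is the quantitative statement, the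
second part its qualitative form. -/
theorem result :
    (∀ (G : Type u) [Group G] [Finite G] (A : Set G), (∀ a ∈ A, a⁻¹ ∈ A) →
      Subgroup.closure A = ⊤ → ∀ r : ℕ, 1 ≤ r → 10 ^ 40 * r ^ 5 ≤ (ball A r).ncard →
      ∃ l : List G, ClosedSeq A l ∧
        (Nat.card G : ℝ) ≤ l.length * (r ^ 4 * exp (600 * √(log (Nat.card G))))) ∧
    (∀ (ε : ℝ) (R : ℕ), 0 < ε → ∃ N₀ : ℕ, ∀ (G : Type u) [Group G] [Finite G] (A : Set G),
      (∀ a ∈ A, a⁻¹ ∈ A) → Subgroup.closure A = ⊤ → N₀ ≤ Nat.card G →
      (10 ^ 40 ≤ A.ncard ∨ ∃ r : ℕ, 1 ≤ r ∧ r ≤ R ∧ 10 ^ 40 * r ^ 5 ≤ (ball A r).ncard) →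
      ∃ l : List G, ClosedSeq A l ∧ (Nat.card G : ℝ) ^ (1 - ε) ≤ l.length) := by
  constructor
  · intro G _ _ A hinv hgen r hr hball
    exact quantitative A hinv hgen r hr hball
  · intro ε R hε
    -- `N ^ ε ≥ (R + 1) ^ 4 * exp (600 √(log N))` as soon as `log N` is large
    obtain ⟨N₀, hN₀⟩ := exists_nat_ge
      (exp ((1200 / ε) ^ 2 + 2 / ε * log (((R + 1 : ℕ) : ℝ) ^ 4)))
    refine ⟨N₀, ?_⟩
    intro G _ _ A hinv hgen hN hcases
    have hball : ∃ r : ℕ, 1 ≤ r ∧ r ≤ R + 1 ∧ 10 ^ 40 * r ^ 5 ≤ (ball A r).ncard := by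
      rcases hcases with h | ⟨r, h1, h2, h3⟩
      · refine ⟨1, le_rfl, by omega, ?_⟩
        have h4 : A ⊆ ball A 1 := by
          intro a ha
          right
          exact ⟨1, rfl, a, ha, (one_mul a).symm⟩
        rw [one_pow, mul_one]
        exact h.trans (Set.ncard_le_ncard h4 (Set.toFinite _))
      · exact ⟨r, h1, by omega, h3⟩
    obtain ⟨r, hr1, hrR, hr⟩ := hball
    obtain ⟨l, hl, hlen⟩ := quantitative A hinv hgen r hr1 hr
    refine ⟨l, hl, ?_⟩
    have hNpos : (0 : ℝ) < Nat.card G := by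
      have : 0 < Nat.card G := Nat.card_pos
      exact_mod_cast this
    set N : ℝ := ((Nat.card G : ℕ) : ℝ) with hNdef
    have hR1 : (1 : ℝ) ≤ ((R + 1 : ℕ) : ℝ) ^ 4 := by
      apply one_le_pow₀
      push_cast
      linarith [(Nat.cast_nonneg R : (0 : ℝ) ≤ R)]
    have hlogR : 0 ≤ log (((R + 1 : ℕ) : ℝ) ^ 4) := log_nonneg hR1
    have hlog : (1200 / ε) ^ 2 + 2 / ε * log (((R + 1 : ℕ) : ℝ) ^ 4) ≤ log N := by
      rw [le_log_iff_exp_le hNpos]
      refine hN₀.trans ?_
      rw [hNdef]
      exact_mod_cast hN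
    have h2ε : 0 ≤ 2 / ε * log (((R + 1 : ℕ) : ℝ) ^ 4) := by positivity
    have hlog0 : 0 ≤ log N := by
      have : 0 ≤ (1200 / ε) ^ 2 := by positivity
      linarith
    set s := √(log N) with hs
    have hss : s * s = log N := mul_self_sqrt hlog0
    have hs0 : 0 ≤ s := sqrt_nonneg _
    have hs1 : 1200 / ε ≤ s := by
      rw [hs]
      apply le_sqrt_of_sq_le
      linarith
    have h1 : 600 * s ≤ ε / 2 * log N := by
      have h2 : 1200 ≤ ε * s := by
        rw [div_le_iff₀ hε] at hs1
        linarith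
      rw [← hss]
      nlinarith
    have h2 : log (((R + 1 : ℕ) : ℝ) ^ 4) ≤ ε / 2 * log N := by
      have h3 : 2 / ε * log (((R + 1 : ℕ) : ℝ) ^ 4) ≤ log N := by
        have : 0 ≤ (1200 / ε) ^ 2 := by positivity
        linarith
      calc log (((R + 1 : ℕ) : ℝ) ^ 4) = ε / 2 * (2 / ε * log (((R + 1 : ℕ) : ℝ) ^ 4)) := by
            field_simp
        _ ≤ _ := by gcongr
    have h3 : (r : ℝ) ^ 4 * exp (600 * s) ≤ N ^ ε := by
      have h4 : (r : ℝ) ^ 4 ≤ exp (ε / 2 * log N) := by
        calc (r : ℝ) ^ 4 ≤ ((R + 1 : ℕ) : ℝ) ^ 4 := by gcongr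
          _ = exp (log (((R + 1 : ℕ) : ℝ) ^ 4)) := (exp_log (by linarith)).symm
          _ ≤ _ := exp_le_exp.2 h2
      calc (r : ℝ) ^ 4 * exp (600 * s) ≤ exp (ε / 2 * log N) * exp (ε / 2 * log N) := by
            gcongr
        _ = exp (log N * ε) := by rw [← exp_add]; congr 1; ring
        _ = N ^ ε := by rw [rpow_def_of_pos hNpos]
    have h4 : N ≤ l.length * N ^ ε := hlen.trans (by gcongr)
    rw [rpow_sub hNpos, rpow_one, div_le_iff₀ (rpow_pos_of_pos hNpos _)]
    exact h4

end Pool.Agent.Results.MP_688fd0_co.NearLinearCycles
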