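import Pool.Agent.N533.NS.Fin1
import Pool.Agent.N533.NS.SkelNum

/-!
# Almost spanning cycles in Cayley graphs of polynomial degree

For all `ε > 0` and `η > 0` there is `N₀` such that every finite group `G` of order `N ≥ N₀` with a
symmetric generating set `A` of at least `N ^ ε` elements has a closed sequence `a_1, …, a_m` of
elements of `A`, with pairwise distinct initial products `a_1 ⋯ a_k`, of length
`m ≥ (1 - η) * N`: a cycle through all but at most `η * N` vertices of the Cayley graph.
-/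

open Real

namespace Pool.Agent.Results.MP_688fd0_co.NearSpanningCycles

/-- `ClosedSeq A l`: the entries `a_1, …, a_m` of the list `l` lie in `A`, the products
`a_1 ⋯ a_k` for `1 ≤ k ≤ m` are pairwise distinct, and `a_1 ⋯ a_m = 1`. -/
structure ClosedSeq {G : Type} [Group G] (A : Set G) (l : List G) : Prop where
  mem : ∀ a ∈ l, a ∈ A
  distinct : ∀ j k : ℕ, 1 ≤ j → j < k → k ≤ l.length → (l.take j).prod ≠ (l.take k).prod
  closed : l.prod = 1

section proofs

open Pool.Agent.N533.NS

variable {G : Type} [Group G]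

/-- A cycle of the Cayley graph gives a closed sequence. -/
lemma seq_of_list [DecidableEq G] {D : Finset G} {L : List G} (hn : 2 ≤ L.length)
    (hnd : L.Nodup) (hch : L.IsChain fun a b => a⁻¹ * b ∈ insert 1 D)
    (hcl : ∃ y z, L.head? = some y ∧ L.getLast? = some z ∧ z⁻¹ * y ∈ insert 1 D) :
    ∃ l : List G, l.length = L.length ∧ ClosedSeq (D : Set G) l := by
  set n := L.length with hndef
  set g : ℕ → G := fun i => L.getD i 1 with hg
  have hgi : ∀ i (h : i < n), g i = L[i] := by
    intro i h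
    simp only [hg]
    exact List.getD_eq_getElem _ _ h
  have hinj : ∀ i < n, ∀ j < n, g i = g j → i = j := by
    intro i hi j hj h
    rw [hgi i hi, hgi j hj] at h
    exact (List.Nodup.getElem_inj_iff hnd).1 h
  have hstep1 : ∀ i, i + 1 < n → (g i)⁻¹ * g (i + 1) ∈ insert 1 D := by
    intro i hi
    rw [hgi i (by omega), hgi (i + 1) hi]
    exact List.isChain_iff_getElem.1 hch i hi
  have hclose : (g (n - 1))⁻¹ * g 0 ∈ insert 1 D := by
    obtain ⟨y, z, hy, hz, hyz⟩ := hcl
    have h1 : g 0 = y := by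
      rw [hgi 0 (by omega)]
      rw [List.head?_eq_getElem?, List.getElem?_eq_getElem (by omega)] at hy
      exact Option.some.inj hy
    have h2 : g (n - 1) = z := by
      rw [hgi (n - 1) (by omega)]
      rw [List.getLast?_eq_getElem?, List.getElem?_eq_getElem (by omega)] at hz
      exact Option.some.inj hz
    rw [h1, h2]
    exact hyz
  set f : ℕ → G := fun i => g (i % n) with hf
  have hstep : ∀ i < n, (f i)⁻¹ * f (i + 1) ∈ D := by
    intro i hi
    have h1 : f i = g i := by simp only [hf, Nat.mod_eq_of_lt hi]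
    by_cases h : i + 1 < n
    · have h2 : f (i + 1) = g (i + 1) := by simp only [hf, Nat.mod_eq_of_lt h]
      have h3 := hstep1 i h
      rw [Finset.mem_insert] at h3
      rw [h1, h2]
      refine h3.resolve_left fun h4 => ?_
      have h5 : g i = g (i + 1) := by rwa [inv_mul_eq_one] at h4
      have := hinj i hi (i + 1) h h5
      omega
    · have e : i + 1 = n := by omega
      have h2 : f (i + 1) = g 0 := by simp only [hf, e, Nat.mod_self]
      have h3 := hclose
      rw [Finset.mem_insert] at h3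
      rw [h1, h2]
      have e2 : n - 1 = i := by omega
      rw [e2] at h3
      refine h3.resolve_left fun h4 => ?_
      have h5 : g i = g 0 := by rwa [inv_mul_eq_one] at h4
      have := hinj i hi 0 (by omega) h5
      omega
  have hprod : ∀ k, ((List.range k).map fun i => (f i)⁻¹ * f (i + 1)).prod = (f 0)⁻¹ * f k := by
    intro k
    induction k with
    | zero => simp
    | succ k ih => rw [List.prod_range_succ, ih]; group
  have htake : ∀ k ≤ n, (((List.range n).map fun i => (f i)⁻¹ * f (i + 1)).take k).prod =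
      (f 0)⁻¹ * f k := by
    intro k hk
    rw [← hprod k, ← List.map_take, List.take_range, min_eq_left hk]
  refine ⟨(List.range n).map fun i => (f i)⁻¹ * f (i + 1), by simp, ?_, ?_, ?_⟩
  · intro a ha
    obtain ⟨i, hi, rfl⟩ := List.mem_map.1 ha
    exact hstep i (List.mem_range.1 hi)
  · intro j k hj hjk hk
    rw [List.length_map, List.length_range] at hk
    rw [htake j (by omega), htake k hk]
    intro h
    have h1 : f j = f k := mul_left_cancel h
    simp only [hf] at h1
    have h2 := hinj _ (Nat.mod_lt _ (by omega)) _ (Nat.mod_lt _ (by omega)) h1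
    rw [Nat.mod_eq_of_lt (by omega : j < n)] at h2
    by_cases h3 : k < n
    · rw [Nat.mod_eq_of_lt h3] at h2
      omega
    · have h4 : k = n := by omega
      rw [h4, Nat.mod_self] at h2
      omega
  · rw [hprod n]
    simp [hf]

lemma ClosedSeq.mono {A B : Set G} (h : A ⊆ B) {l : List G} (hl : ClosedSeq A l) :
    ClosedSeq B l := ⟨fun a ha => h (hl.mem a ha), hl.distinct, hl.closed⟩

end proofs

/-- **Almost spanning cycles.** -/
theorem result : ∀ ε η : ℝ, 0 < ε → 0 < η → ∃ N₀ : ℕ, ∀ (G : Type) [Group G] [Finite G]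
    (A : Set G), (∀ a ∈ A, a⁻¹ ∈ A) → Subgroup.closure A = ⊤ → N₀ ≤ Nat.card G →
    (Nat.card G : ℝ) ^ ε ≤ A.ncard →
    ∃ l : List G, ClosedSeq A l ∧ (1 - η) * Nat.card G ≤ l.length := by
  intro ε η hε hη
  set η' : ℝ := min (η / 7) (1 / 10) with hη'
  have hη'0 : 0 < η' := lt_min (by positivity) (by norm_num)
  have hη'1 : η' ≤ 1 / 10 := min_le_right _ _
  have hη'2 : 7 * η' ≤ η := by
    have : η' ≤ η / 7 := min_le_left _ _
    linarith
  obtain ⟨K, dW, hW⟩ := Pool.Agent.N533.NS.wStm (ε / 2) (by positivity)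
  choose! f hf using fun (m : ℕ) (hm : 2 ≤ m) => Pool.Agent.N533.NS.core_m
    Pool.Agent.N533.NS.skel2Stm m hm (ε0 := ε / 2) (η := η') (by positivity) hη'0 hη'1
  set D0 : ℕ := 2 + dW + ∑ m ∈ Finset.range (K + 1), f m with hD0
  refine ⟨max 7 ⌈((D0 : ℕ) : ℝ) ^ (2 / ε)⌉₊, ?_⟩
  intro G _ _ A hinv hgen hN hA
  classical
  have : Fintype G := Fintype.ofFinite G
  obtain ⟨A, rfl⟩ : ∃ B : Finset G, (B : Set G) = A := ⟨A.toFinset, by simp⟩
  rw [Nat.card_eq_fintype_card] at hN hA ⊢
  rw [Set.ncard_coe_finset] at hA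
  have hN7 : (7 : ℝ) ≤ Fintype.card G := by
    exact_mod_cast (le_max_left _ _).trans hN
  have hNpos : (0 : ℝ) < Fintype.card G := by linarith
  have hND : ((D0 : ℕ) : ℝ) ^ (2 / ε) ≤ Fintype.card G :=
    (Nat.le_ceil _).trans (by exact_mod_cast (le_max_right _ _).trans hN)
  set z : ℝ := (Fintype.card G : ℝ) ^ (ε / 2) with hz
  have hDz : ((D0 : ℕ) : ℝ) ≤ z := by
    have h1 : (((D0 : ℕ) : ℝ) ^ (2 / ε)) ^ (ε / 2) ≤ z :=
      Real.rpow_le_rpow (by positivity) hND (by positivity)
    rw [← Real.rpow_mul (Nat.cast_nonneg _), div_mul_div_comm, mul_comm 2 ε,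
      div_self (by positivity), Real.rpow_one] at h1
    exact h1
  have hz2 : 2 ≤ z := by
    refine le_trans ?_ hDz
    exact_mod_cast (by omega : 2 ≤ D0)
  have hzsq : z ^ 2 = (Fintype.card G : ℝ) ^ ε := by
    rw [hz, ← Real.rpow_natCast, ← Real.rpow_mul hNpos.le]
    congr 1
    push_cast
    ring
  set D := A.erase 1 with hD
  have hDA : (A.card : ℝ) ≤ D.card + 1 := by
    have h1 : A.card - 1 ≤ D.card := Finset.pred_card_le_card_erase
    exact_mod_cast (by omega : A.card ≤ D.card + 1)
  have hDz2 : z ≤ D.card := by nlinarith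
  have hD0D : D0 ≤ D.card := by exact_mod_cast hDz.trans hDz2
  have hDinv : ∀ x ∈ D, x⁻¹ ∈ D := by
    intro x hx
    rw [hD, Finset.mem_erase] at hx ⊢
    exact ⟨inv_ne_one.2 hx.1, by simpa using hinv x (by simpa using hx.2)⟩
  have h1D : (1 : G) ∉ D := by rw [hD]; simp
  have hgenD : Subgroup.closure (D : Set G) = ⊤ := by
    rw [eq_top_iff, ← hgen, Subgroup.closure_le]
    intro x hx
    by_cases hx1 : x = 1
    · rw [hx1]; exact Subgroup.one_mem _
    · apply Subgroup.subset_closure
      rw [hD]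
      simp only [Finset.coe_erase, Set.mem_sdiff, Set.mem_singleton_iff]
      exact ⟨hx, hx1⟩
  obtain ⟨m, hm2, hmK, S1, hS1, hS1n, U, _, _, P, hKer⟩ :=
    hW G D hDinv h1D (by omega) hDz2
  have hfm : f m ≤ D.card := by
    have h1 : f m ≤ ∑ m ∈ Finset.range (K + 1), f m :=
      Finset.single_le_sum (f := f) (fun _ _ => Nat.zero_le _) (Finset.mem_range.2 (by omega))
    omega
  obtain ⟨L, hL1, hL2, hL3, hL4⟩ := hf m hm2 G D S1 U P hDinv h1D hgenD hfm hDz2 hS1 hS1n hKer
  have hlen : 2 ≤ L.length := by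
    have h1 : (3 / 10 : ℝ) * 7 ≤ L.length := by nlinarith
    have h2 : (2 : ℝ) ≤ L.length := by linarith
    exact_mod_cast h2
  obtain ⟨l, hl, hl2⟩ := seq_of_list hlen hL1 hL2 hL3
  refine ⟨l, hl2.mono (by rw [hD]; simp), ?_⟩
  rw [hl]
  nlinarith

end Pool.Agent.Results.MP_688fd0_co.NearSpanningCycles
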